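import Pool.Agent.J6H77.Mdim.Core

namespace Pool.Agent.J6H77.Mdim

/-- The necessary condition for the existence of a resolving triple. -/
def Bd (n M : ℤ) : Prop :=
  (n % 2 = 0 → 6 * M + 6 ≤ n ∧ (M % 2 = 0 → n ≠ 6 * M + 8)) ∧
  (n % 2 = 1 → (M % 2 = 1 → 6 * M + 5 ≤ n ∧ n ≠ 6 * M + 7) ∧ (M % 2 = 0 → 6 * M + 7 ≤ n))

variable {n M : ℤ}

/-- Two points in the bottom row, one in the top row, half of the configurations. -/
theorem patB2_half {a c : ℤ} (h : Res n M 0 0 a 0 c M) (hn : 4 ≤ n) (hM : 1 ≤ M)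
    (ha0 : 1 ≤ a) (ha1 : 2 * a ≤ n - 2) (hc0 : 0 ≤ c) (hc1 : 2 * c ≤ a) : Bd n M := by
  have hn0 : 0 < n := by omega
  by_cases h1 : (a - c + M) % 2 = 0
  · exfalso
    obtain ⟨j, y, e, e1, e2, e3, e4⟩ := ex_sub (c + 1) a 0 (M - 1) ((a + c - M + 2) / 2)
      (by omega) (by omega) (by omega) (by omega)
    refine h.c23 hn0 j y (j - 1) (y + 1) ?_ ?_ ?_ ?_ <;> (simp only [Side, ds]; omega)
  by_cases h2 : 1 ≤ c ∧ (c + M) % 2 = 0
  · exfalso
    obtain ⟨j, y, e, e1, e2, e3, e4⟩ := ex_add 0 (c - 1) 0 (M - 1) ((c + M) / 2 - 1)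
      (by omega) (by omega) (by omega) (by omega)
    refine h.c13 hn0 j y (j + 1) (y + 1) ?_ ?_ ?_ ?_ <;> (simp only [Side, ds]; omega)
  by_cases h3 : 2 * c = a
  · exfalso
    refine h.c12 hn0 0 0 a 0 ?_ ?_ ?_ ?_ <;> (simp only [Side, ds]; omega)
  by_cases h4 : c = 0 ∧ M % 2 = 0
  · exfalso
    obtain ⟨h4, h5⟩ := h4
    subst h4
    refine h.c13 hn0 1 (M / 2 + 1) (-1) (M / 2 - 1) ?_ ?_ ?_ ?_ <;> (simp only [Side, ds]; omega)
  by_cases h5 : n % 2 = 1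
  · exfalso
    obtain ⟨j, y, e, e1, e2, e3, e4⟩ := ex_add (c + n / 2 + 1) (a + n / 2 - 1) 0 (M - 1)
      ((n + c + a + M - 2) / 2)
      (by omega) (by omega) (by omega) (by omega)
    refine h.c23 hn0 j y (j + 1) (y + 1) ?_ ?_ ?_ ?_ <;> (simp only [Side, ds]; omega)
  -- `n` even, `a` even
  have h6 : a % 2 = 0 := by omega
  have h7 : a / 2 - c ≤ M → n / 2 < a + (a / 2 - c) := by
    intro h8
    by_contra h9
    refine h.c12 hn0 a (a / 2 - c) (-(a / 2 - c)) 0 ?_ ?_ ?_ ?_ <;>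
      (simp only [Side, ds]; omega)
  have h8 : n / 2 - a ≤ M → a + (a / 2 - c) < n / 2 := by
    intro h8
    by_contra h9
    refine h.c12 hn0 (n / 2 - (a / 2 - c)) (n / 2 - a) (-(a / 2 - c)) 0 ?_ ?_ ?_ ?_ <;>
      (simp only [Side, ds]; omega)
  unfold Bd
  omega


theorem patB1 {a c b b₃ : ℤ} (h : Res n M 0 b a b c b₃) (hn : 4 ≤ n) (hM : 1 ≤ M)
    (hb0 : 0 ≤ b) (hb1 : b < b₃) (hb3 : b₃ ≤ M)
    (ha0 : 1 ≤ a) (ha1 : 2 * a ≤ n - 2) (hc0 : 0 ≤ c) (hc1 : c < n) : Bd n M := by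
  have hn0 : 0 < n := by omega
  by_cases h1 : a < c
  · exfalso
    by_cases h2 : c ≤ 2 * (n / 2) - 1
    · refine h.cId hn0 (max a (c - n / 2)) (b + 1) (max a (c - n / 2) + 1) b ?_ ?_ ?_ ?_ <;>
        (simp only [Side, ds]; omega)
    · refine h.cId hn0 (n - 1) b n (b + 1) ?_ ?_ ?_ ?_ <;> (simp only [Side, ds]; omega)
  by_cases h5 : b₃ < M
  · exfalso
    refine h.cId hn0 a (b₃ + 1) (a + 1) b₃ ?_ ?_ ?_ ?_ <;> (simp only [Side, ds]; omega)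
  by_cases h6 : 0 < b
  · exfalso
    refine h.cId hn0 a (b - 1) (a + 1) b ?_ ?_ ?_ ?_ <;> (simp only [Side, ds]; omega)
  have h7 : b = 0 := by omega
  have h8 : b₃ = M := by omega
  subst h7 h8
  by_cases h9 : 2 * c ≤ a
  · exact patB2_half h hn hM ha0 ha1 hc0 h9
  · have h' := ((h.refl hn0).shift a).perm12
    have e1 : -(0 : ℤ) + a = a := by ring
    have e2 : -a + a = 0 := by ring
    have e3 : -c + a = a - c := by ring
    rw [e1, e2, e3] at h'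
    exact patB2_half h' hn hM ha0 ha1 (by omega) (by omega)

theorem patB_even {a c b b₃ : ℤ} (h : Res n M 0 b a b c b₃) (hn : 4 ≤ n)
    (hb0 : 0 ≤ b) (hb1 : b < b₃) (hb3 : b₃ ≤ M)
    (ha1 : 2 * a = n) (hc0 : 0 ≤ c) (hc1 : c ≤ a) : False := by
  have hn0 : 0 < n := by omega
  by_cases h1 : c = 0 ∨ c = a
  · refine h.cId hn0 1 0 (-1) 0 ?_ ?_ ?_ ?_ <;> (simp only [Side, ds]; omega)
  by_cases h2 : a % 2 = 0
  · refine h.c12 hn0 (c + a / 2) 0 (c + a / 2 - a) 0 ?_ ?_ ?_ ?_ <;>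
      (simp only [Side, ds]; omega)
  by_cases h3 : (c + b₃ + b) % 2 = 0
  · obtain ⟨j, y, e, e1, e2, e3, e4⟩ := ex_add 0 (c - 1) b (b₃ - 1) ((c + b₃ + b) / 2 - 1)
      (by omega) (by omega) (by omega) (by omega)
    refine h.c13 hn0 j y (j + 1) (y + 1) ?_ ?_ ?_ ?_ <;> (simp only [Side, ds]; omega)
  · obtain ⟨j, y, e, e1, e2, e3, e4⟩ := ex_sub (c + 1) a b (b₃ - 1) ((a + c - b₃ - b + 2) / 2)
      (by omega) (by omega) (by omega) (by omega)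
    refine h.c23 hn0 j y (j - 1) (y + 1) ?_ ?_ ?_ ?_ <;> (simp only [Side, ds]; omega)

/-- `n = 2a+1`, `s₃` over the short arc. -/
theorem patB_odd_short {a c b b₃ : ℤ} (h : Res n M 0 b a b c b₃) (hn : 4 ≤ n)
    (hb0 : 0 ≤ b) (hb1 : b < b₃) (hb3 : b₃ ≤ M)
    (ha1 : 2 * a + 1 = n) (hc0 : 0 ≤ c) (hc1 : 2 * c ≤ a) : False := by
  have hn0 : 0 < n := by omega
  by_cases h1 : 2 * c = a
  · refine h.c12 hn0 0 b a b ?_ ?_ ?_ ?_ <;> (simp only [Side, ds]; omega)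
  by_cases h3 : (a + c + b₃ + b) % 2 = 0
  · obtain ⟨j, y, e, e1, e2, e3, e4⟩ := ex_sub (c + 1) a b (b₃ - 1) ((a + c - b₃ - b + 2) / 2)
      (by omega) (by omega) (by omega) (by omega)
    refine h.c23 hn0 j y (j - 1) (y + 1) ?_ ?_ ?_ ?_ <;> (simp only [Side, ds]; omega)
  · obtain ⟨j, y, e, e1, e2, e3, e4⟩ := ex_add (c + a + 1) (2 * a - 1) b (b₃ - 1)
      ((n + c + a + b + b₃ - 2) / 2)
      (by omega) (by omega) (by omega) (by omega)
    refine h.c23 hn0 j y (j + 1) (y + 1) ?_ ?_ ?_ ?_ <;> (simp only [Side, ds]; omega)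

/-- `n = 2a+1`, `s₃` over the long arc. -/
theorem patB_odd_long {a c b b₃ : ℤ} (h : Res n M 0 b a b c b₃) (hn : 4 ≤ n)
    (hb0 : 0 ≤ b) (hb1 : b < b₃) (hb3 : b₃ ≤ M)
    (ha1 : 2 * a + 1 = n) (hc0 : n - c ≤ c - a) (hc1 : c < n) : False := by
  have hn0 : 0 < n := by omega
  by_cases h3 : (c - a + b₃ + b) % 2 = 0
  · obtain ⟨j, y, e, e1, e2, e3, e4⟩ := ex_add (a + 1) (c - 1) b (b₃ - 1)
      ((c + a + b + b₃ - 2) / 2)
      (by omega) (by omega) (by omega) (by omega)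
    refine h.c23 hn0 j y (j + 1) (y + 1) ?_ ?_ ?_ ?_ <;> (simp only [Side, ds]; omega)
  · obtain ⟨j, y, e, e1, e2, e3, e4⟩ := ex_sub 0 (c - a - 2) (b + 1) b₃
      ((a - b - (n - c) - b₃ - 2) / 2)
      (by omega) (by omega) (by omega) (by omega)
    refine h.c23 hn0 j y (j + 1) (y - 1) ?_ ?_ ?_ ?_ <;> (simp only [Side, ds]; omega)

theorem patB {a c b b₃ : ℤ} (h : Res n M 0 b a b c b₃) (hn : 4 ≤ n) (hM : 1 ≤ M)
    (hb0 : 0 ≤ b) (hb1 : b < b₃) (hb3 : b₃ ≤ M)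
    (ha0 : 1 ≤ a) (ha1 : 2 * a ≤ n) (hc0 : 0 ≤ c) (hc1 : c < n) : Bd n M := by
  have hn0 : 0 < n := by omega
  by_cases h1 : 2 * a ≤ n - 2
  · exact patB1 h hn hM hb0 hb1 hb3 ha0 h1 hc0 hc1
  exfalso
  by_cases h2 : 2 * a = n
  · by_cases h3 : c ≤ a
    · exact patB_even h hn hb0 hb1 hb3 h2 hc0 h3
    · have h' := (h.refl hn0).modEq 0 1 1
      have e1 : -(0 : ℤ) + n * 0 = 0 := by ring
      have e2 : -a + n * 1 = a := by omega
      have e3 : -c + n * 1 = n - c := by ring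
      rw [e1, e2, e3] at h'
      exact patB_even h' hn hb0 hb1 hb3 h2 (by omega) (by omega)
  have h3 : 2 * a + 1 = n := by omega
  by_cases h4 : c ≤ a
  · by_cases h5 : 2 * c ≤ a
    · exact patB_odd_short h hn hb0 hb1 hb3 h3 hc0 h5
    · have h' := ((h.refl hn0).shift a).perm12
      have e1 : -(0 : ℤ) + a = a := by ring
      have e2 : -a + a = 0 := by ring
      have e3 : -c + a = a - c := by ring
      rw [e1, e2, e3] at h'
      exact patB_odd_short h' hn hb0 hb1 hb3 h3 (by omega) (by omega)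
  · by_cases h5 : n - c ≤ c - a
    · exact patB_odd_long h hn hb0 hb1 hb3 h3 h5 hc1
    · have h' := (((h.refl hn0).shift a).perm12).modEq 0 0 1
      have e1 : -(0 : ℤ) + a + n * 0 = a := by ring
      have e2 : -a + a + n * 0 = 0 := by ring
      have e3 : -c + a + n * 1 = n + a - c := by ring
      rw [e1, e2, e3] at h'
      exact patB_odd_long h' hn hb0 hb1 hb3 h3 (by omega) (by omega)

end Pool.Agent.J6H77.Mdim
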