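import Pool.Agent.J6H77.Mdim.Upper3
import Pool.Agent.J6H77.Mdim.PatB

namespace Pool.Agent.J6H77.Mdim

variable {n M : ℤ}

theorem exists3 (hn : 4 ≤ n) (hM : 1 ≤ M) (h : Bd n M) : ∃ a₂ a₃ b₃ : ℤ,
    0 < a₂ ∧ a₂ < n ∧ 0 ≤ a₃ ∧ a₃ < n ∧ 0 ≤ b₃ ∧ b₃ ≤ M ∧ (b₃ = 0 → a₃ ≠ 0 ∧ a₃ ≠ a₂) ∧
    Res n M 0 0 a₂ 0 a₃ b₃ := by
  unfold Bd at h
  obtain ⟨hE, hO⟩ := h
  rcases Int.emod_two_eq_zero_or_one n with hn2 | hn2
  · obtain ⟨h1, h2⟩ := hE hn2
    clear hE hO
    by_cases hB : M % 2 = 1 ∧ n = 6 * M + 6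
    · obtain ⟨r, hr⟩ : ∃ r, M = 2 * r + 1 := ⟨M / 2, by omega⟩
      obtain ⟨hB1, hB2⟩ := hB
      have e : n = 2 * (6 * r + 6) := by omega
      subst hr
      rw [e]
      exact ⟨4 * r + 4, 0, 2 * r + 1, by omega, by omega, by omega, by omega, by omega, by omega,
        by omega, resB (by omega)⟩
    · by_cases h4 : (n - 4 * M - 6) % 4 = 0
      · obtain ⟨i, hi⟩ : ∃ i, n = 4 * i + 4 * M + 6 := ⟨(n - 4 * M - 6) / 4, by omega⟩
        have e : n = 2 * (i + (i + M + 1) + (M + 1) + 1) := by omega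
        have hres := resE (i := i) (j := i + M + 1) (l := M + 1) (M := M) (by omega) (by omega)
          (by omega) (by omega) (by omega) (by omega)
        rw [← e] at hres
        exact ⟨2 * i + 1, 2 * i + 1 + 2 * (M + 1), 0, by omega, by omega, by omega, by omega,
          by omega, by omega, by omega, hres⟩
      · obtain ⟨i, hi⟩ : ∃ i, n = 4 * i + 4 * M + 8 := ⟨(n - 4 * M - 8) / 4, by omega⟩
        have e : n = 2 * (i + (i + M + 1) + (M + 2) + 1) := by omega
        have hres := resE (i := i) (j := i + M + 1) (l := M + 2) (M := M) (by omega) (by omega)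
          (by omega) (by omega) (by omega) (by omega)
        rw [← e] at hres
        exact ⟨2 * i + 1, 2 * i + 1 + 2 * (M + 2), 0, by omega, by omega, by omega, by omega,
          by omega, by omega, by omega, hres⟩
  · obtain ⟨h1, h2⟩ := hO hn2
    clear hE hO
    by_cases h4 : n % 4 = 1
    · obtain ⟨i, hi⟩ : ∃ i, n = 4 * i + 4 * M + 5 := ⟨(n - 4 * M - 5) / 4, by omega⟩
      have e : n = 2 * (2 * i + 2 * M + 2) + 1 := by omega
      have hres := resO2 (i := i) (M := M) (by omega) (by omega)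
      rw [← e] at hres
      exact ⟨2 * i, 2 * i + (2 * M + 3), 0, by omega, by omega, by omega, by omega,
          by omega, by omega, by omega, hres⟩
    · by_cases h15 : n = 15 ∧ M = 1
      · obtain ⟨e1, e2⟩ := h15
        subst e1 e2
        exact ⟨3, 7, 0, by omega, by omega, by omega, by omega, by omega, by omega, by omega,
          res15⟩
      · obtain ⟨k, hk⟩ : ∃ k, n = 2 * k + 1 := ⟨n / 2, by omega⟩
        have hk2 : k % 2 = 1 := by omega
        obtain ⟨i, hi⟩ : ∃ i, i = k / 6 + 1 := ⟨_, rfl⟩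
        obtain ⟨j, hj⟩ : ∃ j, k = 2 * i + (2 * j + 1) := ⟨(k - 2 * i) / 2, by omega⟩
        have e : n = 2 * (2 * i + (2 * j + 1)) + 1 := by omega
        have hres := resO1 (i := i) (j := j) (M := M) (by omega) (by omega)
          (by omega) (by omega) (by omega)
        rw [← e] at hres
        exact ⟨2 * i, 2 * i + (2 * j + 1), 0, by omega, by omega, by omega, by omega,
          by omega, by omega, by omega, hres⟩

end Pool.Agent.J6H77.Mdim
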