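import Pool.Agent.J6H77.Mdim.PatB

namespace Pool.Agent.J6H77.Mdim

variable {n M : ℤ}

theorem patC_even {g₁ g₂ g₃ : ℤ} (hn : 4 ≤ n) (hM : 1 ≤ M)
    (h1 : 1 ≤ g₁) (h12 : g₁ ≤ g₂) (h23 : g₂ ≤ g₃) (hsum : g₁ + g₂ + g₃ = n)
    (hT : n - 1 ≤ 2 * (g₁ + g₂)) (e12 : g₁ ≠ g₂) (e23 : g₂ ≠ g₃) (hn2 : n % 2 = 0)
    (a23 : (g₃ - g₂) % 2 = 0 → g₃ - g₂ ≤ 2 * M → False)
    (a13 : (g₃ - g₁) % 2 = 0 → g₃ - g₁ ≤ 2 * M → g₂ ≤ 2 * g₁ → False)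
    (a12 : (g₂ - g₁) % 2 = 0 → g₂ - g₁ ≤ 2 * M → g₃ ≤ 2 * g₁ → False)
    (b21 : g₂ % 2 = 0 → 2 * g₁ ≤ g₂ → n / 2 - g₂ ≤ M → False)
    (b31 : g₃ % 2 = 0 → 2 * g₁ ≤ g₃ → n / 2 - g₃ ≤ M → False)
    (a3 : g₁ % 2 = 0 → g₂ % 2 = 0 → g₂ ≤ 2 * g₁ → g₂ - g₁ ≤ 2 * M → False) : Bd n M := by
  suffices hs : 6 * M + 6 ≤ n ∧ (M % 2 = 0 → n ≠ 6 * M + 8) by
    unfold Bd
    exact ⟨fun _ => hs, fun h => by omega⟩
  have hk : g₃ ≤ g₁ + g₂ := by omega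
  by_cases p23 : (g₃ - g₂) % 2 = 0
  · have q23 : 2 * M + 2 ≤ g₃ - g₂ := by
      by_contra hh
      exact a23 p23 (by omega)
    clear a23 a13 a12 b21 b31
    by_cases p2 : g₂ % 2 = 0
    · have p1 : g₁ % 2 = 0 := by omega
      constructor
      · omega
      · omega
    · have p1 : g₁ % 2 = 0 := by omega
      constructor
      · omega
      · omega
  · by_cases p2 : g₂ % 2 = 0
    · have p1 : (g₃ - g₁) % 2 = 0 := by omega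
      have f1 : 2 * g₁ < g₂ ∨ 2 * M + 2 ≤ g₃ - g₁ := by
        by_contra hh
        exact a13 p1 (by omega) (by omega)
      have f2 : g₂ < 2 * g₁ ∨ M + 1 ≤ n / 2 - g₂ := by
        by_contra hh
        exact b21 p2 (by omega) (by omega)
      clear a23 a13 a12 b21 b31 a3
      rcases lt_trichotomy g₂ (2 * g₁) with h | h | h
      · have f1' : 2 * M + 2 ≤ g₃ - g₁ := by omega
        clear f1 f2
        constructor <;> omega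
      · have f1' : 2 * M + 2 ≤ g₃ - g₁ := by omega
        clear f1 f2
        constructor <;> omega
      · have f2' : M + 1 ≤ n / 2 - g₂ := by omega
        clear f1 f2
        constructor <;> omega
    · have p3 : g₃ % 2 = 0 := by omega
      have p1 : (g₂ - g₁) % 2 = 0 := by omega
      have f1 : 2 * g₁ < g₃ ∨ 2 * M + 2 ≤ g₂ - g₁ := by
        by_contra hh
        exact a12 p1 (by omega) (by omega)
      have f2 : g₃ < 2 * g₁ ∨ M + 1 ≤ n / 2 - g₃ := by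
        by_contra hh
        exact b31 p3 (by omega) (by omega)
      clear a23 a13 a12 b21 b31 a3
      rcases lt_trichotomy g₃ (2 * g₁) with h | h | h
      · have f1' : 2 * M + 2 ≤ g₂ - g₁ := by omega
        clear f1 f2
        constructor <;> omega
      · have f1' : 2 * M + 2 ≤ g₂ - g₁ := by omega
        clear f1 f2
        constructor <;> omega
      · have f2' : M + 1 ≤ n / 2 - g₃ := by omega
        clear f1 f2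
        constructor <;> omega

theorem patC_odd {g₁ g₂ g₃ : ℤ} (hn : 4 ≤ n) (hM : 1 ≤ M)
    (h1 : 1 ≤ g₁) (h12 : g₁ ≤ g₂) (h23 : g₂ ≤ g₃) (hsum : g₁ + g₂ + g₃ = n)
    (hT : n - 1 ≤ 2 * (g₁ + g₂)) (e12 : g₁ ≠ g₂) (e23 : g₂ ≠ g₃) (hn2 : n % 2 = 1)
    (a23 : (g₃ - g₂) % 2 = 0 → g₃ - g₂ ≤ 2 * M → False)
    (a13 : (g₃ - g₁) % 2 = 0 → g₃ - g₁ ≤ 2 * M → g₂ ≤ 2 * g₁ → False)
    (a3 : g₁ % 2 = 0 → g₂ % 2 = 0 → g₂ ≤ 2 * g₁ → g₂ - g₁ ≤ 2 * M → False)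
    (c12 : g₁ % 2 = 0 → g₂ % 2 = 0 → 2 * g₁ ≤ g₂ → g₁ ≤ 2 * M → False)
    (c13 : g₁ % 2 = 0 → g₃ % 2 = 0 → 2 * g₁ < g₂ → g₁ ≤ 2 * M → False) : Bd n M := by
  suffices hs : (M % 2 = 1 → 6 * M + 5 ≤ n ∧ n ≠ 6 * M + 7) ∧ (M % 2 = 0 → 6 * M + 7 ≤ n) by
    unfold Bd
    exact ⟨fun _ => by omega, fun h => hs⟩
  have hk : g₃ ≤ g₁ + g₂ + 1 := by omega
  by_cases p23 : (g₃ - g₂) % 2 = 0
  · have q23 : 2 * M + 2 ≤ g₃ - g₂ := by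
      by_contra hh
      exact a23 p23 (by omega)
    have p1 : g₁ % 2 = 1 := by omega
    clear a23 a13 a3 c12 c13
    refine ⟨fun h => ⟨?_, ?_⟩, fun h => ?_⟩ <;> omega
  · by_cases p2 : g₂ % 2 = 1
    · -- `g₃` even, `g₁` even
      have p3 : g₃ % 2 = 0 := by omega
      have p1 : g₁ % 2 = 0 := by omega
      have f1 : 2 * g₁ < g₂ ∨ 2 * M + 2 ≤ g₃ - g₁ := by
        by_contra hh
        exact a13 (by omega) (by omega) (by omega)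
      have f2 : g₂ < 2 * g₁ ∨ 2 * M + 2 ≤ g₁ := by
        by_contra hh
        exact c13 p1 p3 (by omega) (by omega)
      clear a23 a13 a3 c12 c13
      rcases lt_or_ge g₂ (2 * g₁) with h | h
      · have f1' : 2 * M + 2 ≤ g₃ - g₁ := by omega
        clear f1 f2
        refine ⟨fun h => ⟨?_, ?_⟩, fun h => ?_⟩ <;> omega
      · have f1' : 2 * M + 2 ≤ g₁ := by omega
        clear f1 f2
        refine ⟨fun h => ⟨?_, ?_⟩, fun h => ?_⟩ <;> omega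
    · have p3 : g₃ % 2 = 1 := by omega
      rcases Int.emod_two_eq_zero_or_one g₁ with p1 | p1
      · -- both even
        have f1 : 2 * g₁ < g₂ ∨ 2 * M + 2 ≤ g₂ - g₁ := by
          by_contra hh
          exact a3 p1 (by omega) (by omega) (by omega)
        have f2 : g₂ < 2 * g₁ ∨ 2 * M + 2 ≤ g₁ := by
          by_contra hh
          exact c12 p1 (by omega) (by omega) (by omega)
        clear a23 a13 a3 c12 c13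
        rcases lt_or_ge g₂ (2 * g₁) with h | h
        · have f1' : 2 * M + 2 ≤ g₂ - g₁ := by omega
          clear f1 f2
          refine ⟨fun h => ⟨?_, ?_⟩, fun h => ?_⟩ <;> omega
        · have f1' : 2 * M + 2 ≤ g₁ := by omega
          clear f1 f2
          refine ⟨fun h => ⟨?_, ?_⟩, fun h => ?_⟩ <;> omega
      · exfalso
        omega

/-- Three points of the bottom row with gaps `g₁ ≤ g₂ ≤ g₃`. -/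
theorem patC_sorted {g₁ g₂ g₃ : ℤ} (h : Res n M 0 0 g₁ 0 (g₁ + g₂) 0) (hn : 4 ≤ n) (hM : 1 ≤ M)
    (h1 : 1 ≤ g₁) (h12 : g₁ ≤ g₂) (h23 : g₂ ≤ g₃) (hsum : g₁ + g₂ + g₃ = n) : Bd n M := by
  have hn0 : 0 < n := by omega
  have hT : n - 1 ≤ 2 * (g₁ + g₂) := by
    by_contra hT
    refine h.cId hn0 (g₁ + g₂) 1 (g₁ + g₂ + 1) 0 ?_ ?_ ?_ ?_ <;> (simp only [Side, ds]; omega)
  have e12 : g₁ ≠ g₂ := by
    intro e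
    refine h.c13 hn0 0 0 (g₁ + g₂) 0 ?_ ?_ ?_ ?_ <;> (simp only [Side, ds]; omega)
  have e23 : g₂ ≠ g₃ := by
    intro e
    refine h.c12 hn0 0 0 g₁ 0 ?_ ?_ ?_ ?_ <;> (simp only [Side, ds]; omega)
  have a23 : ¬ ((g₃ - g₂) % 2 = 0 ∧ g₃ - g₂ ≤ 2 * M) := by
    rintro ⟨c1, c2⟩
    refine h.c12 hn0 g₁ ((g₃ - g₂) / 2) (-((g₃ - g₂) / 2)) 0 ?_ ?_ ?_ ?_ <;>
      (simp only [Side, ds]; omega)
  have a13 : ¬ ((g₃ - g₁) % 2 = 0 ∧ g₃ - g₁ ≤ 2 * M ∧ g₂ ≤ 2 * g₁) := by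
    rintro ⟨c1, c2, c3⟩
    refine h.c23 hn0 g₁ ((g₃ - g₁) / 2) (g₁ + g₂ + (g₃ - g₁) / 2) 0 ?_ ?_ ?_ ?_ <;>
      (simp only [Side, ds]; omega)
  have a12 : ¬ (n % 2 = 0 ∧ (g₂ - g₁) % 2 = 0 ∧ g₂ - g₁ ≤ 2 * M ∧ g₃ ≤ 2 * g₁) := by
    rintro ⟨c0, c1, c2, c3⟩
    refine h.c13 hn0 0 ((g₂ - g₁) / 2) (g₁ + g₂ - (g₂ - g₁) / 2) 0 ?_ ?_ ?_ ?_ <;>
      (simp only [Side, ds]; omega)
  have b21 : ¬ (n % 2 = 0 ∧ g₂ % 2 = 0 ∧ 2 * g₁ ≤ g₂ ∧ n / 2 - g₂ ≤ M) := by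
    rintro ⟨c0, c1, c2, c3⟩
    refine h.c23 hn0 (-((g₁ + g₃) / 2)) 0 (g₁ + (g₂ - 2 * g₁) / 2) (n / 2 - g₂) ?_ ?_ ?_ ?_ <;>
      (simp only [Side, ds]; omega)
  have b31 : ¬ (n % 2 = 0 ∧ g₃ % 2 = 0 ∧ 2 * g₁ ≤ g₃ ∧ n / 2 - g₃ ≤ M) := by
    rintro ⟨c0, c1, c2, c3⟩
    refine h.c13 hn0 (g₁ + (g₁ + g₂) / 2) 0 (-((g₃ - 2 * g₁) / 2)) (n / 2 - g₃) ?_ ?_ ?_ ?_ <;>
      (simp only [Side, ds]; omega)
  have a3 : ¬ (g₁ % 2 = 0 ∧ g₂ % 2 = 0 ∧ g₂ ≤ 2 * g₁ ∧ g₂ - g₁ ≤ 2 * M) := by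
    rintro ⟨c0, c1, c2, c3⟩
    refine h.cA hn0 (g₂ / 2) ((g₂ - g₁) / 2) (g₂ + g₁ / 2) 0 ?_ ?_ ?_ ?_ <;>
      (simp only [Side, ds]; omega)
  have c12 : ¬ (g₁ % 2 = 0 ∧ g₂ % 2 = 0 ∧ 2 * g₁ ≤ g₂ ∧ g₁ ≤ 2 * M) := by
    rintro ⟨c0, c1, c2, c3⟩
    refine h.cB hn0 (g₁ + (g₁ + g₂) / 2) 0 (g₁ + (g₂ - 2 * g₁) / 2) (g₁ / 2) ?_ ?_ ?_ ?_ <;>
      (simp only [Side, ds]; omega)
  have c13 : ¬ (n % 2 = 1 ∧ g₁ % 2 = 0 ∧ g₃ % 2 = 0 ∧ 2 * g₁ < g₂ ∧ g₁ ≤ 2 * M) := by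
    rintro ⟨c0, c1, c2, c3, c4⟩
    refine h.cA hn0 (-((g₁ + g₃) / 2)) 0 (-((g₃ - 2 * g₁) / 2)) (g₁ / 2) ?_ ?_ ?_ ?_ <;>
      (simp only [Side, ds]; omega)
  clear h
  rcases Int.emod_two_eq_zero_or_one n with hn2 | hn2
  · exact patC_even hn hM h1 h12 h23 hsum hT e12 e23 hn2 (fun c1 c2 => a23 ⟨c1, c2⟩)
      (fun c1 c2 c3 => a13 ⟨c1, c2, c3⟩) (fun c1 c2 c3 => a12 ⟨hn2, c1, c2, c3⟩)
      (fun c1 c2 c3 => b21 ⟨hn2, c1, c2, c3⟩) (fun c1 c2 c3 => b31 ⟨hn2, c1, c2, c3⟩)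
      (fun c1 c2 c3 c4 => a3 ⟨c1, c2, c3, c4⟩)
  · exact patC_odd hn hM h1 h12 h23 hsum hT e12 e23 hn2 (fun c1 c2 => a23 ⟨c1, c2⟩)
      (fun c1 c2 c3 => a13 ⟨c1, c2, c3⟩)
      (fun c1 c2 c3 c4 => a3 ⟨c1, c2, c3, c4⟩) (fun c1 c2 c3 c4 => c12 ⟨c1, c2, c3, c4⟩)
      (fun c1 c2 c3 c4 => c13 ⟨hn2, c1, c2, c3, c4⟩)

end Pool.Agent.J6H77.Mdim
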