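import Pool.Agent.J6H77.Mdim.PatA
import Pool.Agent.J6H77.Mdim.PatB
import Pool.Agent.J6H77.Mdim.PatC

namespace Pool.Agent.J6H77.Mdim

variable {n M : ℤ}

/-- Three points of the bottom row at `0 < a < c < n`. -/
theorem patC_lt {a c : ℤ} (h : Res n M 0 0 a 0 c 0) (hn : 4 ≤ n) (hM : 1 ≤ M)
    (h1 : 1 ≤ a) (h12 : a < c) (h23 : c < n) : Bd n M := by
  have hn0 : 0 < n := by omega
  -- gaps `a`, `c - a`, `n - c`
  have key : ∀ g₁ g₂ g₃ : ℤ, 1 ≤ g₁ → g₁ ≤ g₂ → g₂ ≤ g₃ → g₁ + g₂ + g₃ = n →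
      Res n M 0 0 g₁ 0 (g₁ + g₂) 0 → Bd n M :=
    fun g₁ g₂ g₃ k1 k2 k3 k4 k5 => patC_sorted k5 hn hM k1 k2 k3 k4
  -- the six rotations and reflections
  rcases le_total a (c - a) with s1 | s1
  · rcases le_total (c - a) (n - c) with s2 | s2
    · -- a ≤ c-a ≤ n-c
      refine key a (c - a) (n - c) h1 s1 s2 (by ring) ?_
      have e : a + (c - a) = c := by ring
      rw [e]; exact h
    · rcases le_total a (n - c) with s3 | s3
      · -- a ≤ n-c ≤ c-a : points n-c ... reflect: gaps (n-c), a, (c-a) cyclic order; start: a then (n-c)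
        refine key a (n - c) (c - a) h1 s3 s2 (by ring) ?_
        -- reflect about: x ↦ a - x : 0→a, a→0, c→a-c ≡ a + n - c
        have h' := (((h.refl hn0).shift a).perm12).modEq 0 0 1
        have e1 : -(0 : ℤ) + a + n * 0 = a := by ring
        have e2 : -a + a + n * 0 = 0 := by ring
        have e3 : -c + a + n * 1 = a + (n - c) := by ring
        rwa [e1, e2, e3] at h'
      · -- n-c ≤ a ≤ c-a : rotate by n-c: c→0, 0→n-c, a→a+n-c
        refine key (n - c) a (c - a) (by omega) s3 s1 (by ring) ?_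
        have h' := (((h.shift (n - c)).modEq 0 0 (-1)).perm23).perm12
        have e1 : (0 : ℤ) + (n - c) + n * 0 = n - c := by ring
        have e2 : a + (n - c) + n * 0 = (n - c) + a := by ring
        have e3 : c + (n - c) + n * (-1) = 0 := by ring
        rwa [e1, e2, e3] at h'
  · rcases le_total (c - a) (n - c) with s2 | s2
    · rcases le_total a (n - c) with s3 | s3
      · -- c-a ≤ a ≤ n-c : reflect x ↦ c - x
        refine key (c - a) a (n - c) (by omega) s1 s3 (by ring) ?_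
        have h' := ((((h.refl hn0).shift c).perm23).perm12).perm23
        have e1 : -(0 : ℤ) + c = (c - a) + a := by ring
        have e2 : -a + c = c - a := by ring
        have e3 : -c + c = 0 := by ring
        rwa [e1, e2, e3] at h'
      · -- c-a ≤ n-c ≤ a : shift by -a: a→0, c→c-a, 0→n-a = (c-a)+(n-c)
        refine key (c - a) (n - c) a (by omega) s2 s3 (by ring) ?_
        have h' := (((h.shift (-a)).modEq 1 0 0).perm12).perm23
        have e1 : (0 : ℤ) + (-a) + n * 1 = (c - a) + (n - c) := by ring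
        have e2 : a + (-a) + n * 0 = 0 := by ring
        have e3 : c + (-a) + n * 0 = c - a := by ring
        rwa [e1, e2, e3] at h'
    · -- n-c ≤ c-a ≤ a : reflect x ↦ -x : 0→0, c→n-c, a→n-a = (n-c)+(c-a)
      refine key (n - c) (c - a) a (by omega) s2 s1 (by ring) ?_
      have h' := ((h.refl hn0).modEq 0 1 1).perm23
      have e1 : -(0 : ℤ) + n * 0 = 0 := by ring
      have e2 : -a + n * 1 = (n - c) + (c - a) := by ring
      have e3 : -c + n * 1 = n - c := by ring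
      rwa [e1, e2, e3] at h'

/-- Reduction of a residue modulo `n`. -/
theorem mod_rep (n x : ℤ) (hn : 0 < n) : ∃ k r : ℤ, x + n * k = r ∧ 0 ≤ r ∧ r < n :=
  ⟨-(x / n), x % n, by have := Int.emod_add_mul_ediv x n; linarith,
    Int.emod_nonneg _ hn.ne', Int.emod_lt_of_pos _ hn⟩

theorem patC {a₁ a₂ a₃ : ℤ} (h : Res n M a₁ 0 a₂ 0 a₃ 0) (hn : 4 ≤ n) (hM : 1 ≤ M)
    (d12 : ¬ n ∣ a₂ - a₁) (d13 : ¬ n ∣ a₃ - a₁) (d23 : ¬ n ∣ a₃ - a₂) : Bd n M := by
  have hn0 : 0 < n := by omega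
  obtain ⟨k2, r2, e2, p2, q2⟩ := mod_rep n (a₂ - a₁) hn0
  obtain ⟨k3, r3, e3, p3, q3⟩ := mod_rep n (a₃ - a₁) hn0
  have h' := (h.shift (-a₁)).modEq 0 k2 k3
  have e1 : a₁ + -a₁ + n * 0 = 0 := by ring
  have e2' : a₂ + -a₁ + n * k2 = r2 := by rw [← e2]; ring
  have e3' : a₃ + -a₁ + n * k3 = r3 := by rw [← e3]; ring
  rw [e1, e2', e3'] at h'
  have n2 : r2 ≠ 0 := by
    rintro rfl
    exact d12 ⟨-k2, by linarith⟩
  have n3 : r3 ≠ 0 := by
    rintro rfl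
    exact d13 ⟨-k3, by linarith⟩
  have n23 : r2 ≠ r3 := by
    rintro rfl
    exact d23 ⟨k2 - k3, by linarith⟩
  rcases lt_or_gt_of_ne n23 with hl | hl
  · exact patC_lt h' hn hM (by omega) hl q3
  · exact patC_lt h'.perm23 hn hM (by omega) hl q2

theorem core_le {a₁ b₁ a₂ b₂ a₃ b₃ : ℤ} (h : Res n M a₁ b₁ a₂ b₂ a₃ b₃)
    (hn : 4 ≤ n) (hM : 1 ≤ M) (hb0 : 0 ≤ b₁) (hb12 : b₁ ≤ b₂) (hb23 : b₂ ≤ b₃) (hb3 : b₃ ≤ M)
    (d12 : ¬ (n ∣ a₂ - a₁ ∧ b₁ = b₂)) (d13 : ¬ (n ∣ a₃ - a₁ ∧ b₁ = b₃))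
    (d23 : ¬ (n ∣ a₃ - a₂ ∧ b₂ = b₃)) : Bd n M := by
  have hn0 : 0 < n := by omega
  -- a pair in the lower row, the third point strictly higher
  have low : ∀ {a₁ a₂ a₃ b b₃ : ℤ}, Res n M a₁ b a₂ b a₃ b₃ → 0 ≤ b → b < b₃ → b₃ ≤ M →
      ¬ (n ∣ a₂ - a₁) → Bd n M := by
    intro a₁ a₂ a₃ b b₃ h k0 k1 k2 k3
    obtain ⟨k2', r2, e2, p2, q2⟩ := mod_rep n (a₂ - a₁) hn0
    have n2 : r2 ≠ 0 := by
      rintro rfl
      exact k3 ⟨-k2', by linarith⟩
    by_cases hr : 2 * r2 ≤ n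
    · obtain ⟨k3', r3, e3, p3, q3⟩ := mod_rep n (a₃ - a₁) hn0
      have h' := (h.shift (-a₁)).modEq 0 k2' k3'
      have e1 : a₁ + -a₁ + n * 0 = 0 := by ring
      have e2' : a₂ + -a₁ + n * k2' = r2 := by rw [← e2]; ring
      have e3' : a₃ + -a₁ + n * k3' = r3 := by rw [← e3]; ring
      rw [e1, e2', e3'] at h'
      exact patB h' hn hM k0 k1 k2 (by omega) hr p3 q3
    · obtain ⟨k3', r3, e3, p3, q3⟩ := mod_rep n (a₃ - a₂) hn0
      have h' := ((h.shift (-a₂)).modEq (-k2' + 1) 0 k3').perm12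
      have e1 : a₁ + -a₂ + n * (-k2' + 1) = n - r2 := by
        rw [← e2]; ring
      have e2' : a₂ + -a₂ + n * 0 = 0 := by ring
      have e3' : a₃ + -a₂ + n * k3' = r3 := by rw [← e3]; ring
      rw [e1, e2', e3'] at h'
      exact patB h' hn hM k0 k1 k2 (by omega) (by omega) p3 q3
  rcases eq_or_lt_of_le hb12 with e12 | l12
  · rcases eq_or_lt_of_le hb23 with e23 | l23
    · -- all rows equal
      subst e12 e23
      by_cases hb : 0 < b₁ ∧ b₁ < M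
      · exfalso
        obtain ⟨k2, r2, e2, p2, q2⟩ := mod_rep n (a₂ - a₁) hn0
        obtain ⟨k3, r3, e3, p3, q3⟩ := mod_rep n (a₃ - a₁) hn0
        have h' := (h.shift (-a₁)).modEq 0 k2 k3
        have e1 : a₁ + -a₁ + n * 0 = 0 := by ring
        have e2' : a₂ + -a₁ + n * k2 = r2 := by rw [← e2]; ring
        have e3' : a₃ + -a₁ + n * k3 = r3 := by rw [← e3]; ring
        rw [e1, e2', e3'] at h'
        refine h'.cId hn0 0 (b₁ - 1) 0 (b₁ + 1) ?_ ?_ ?_ ?_ <;> (simp only [Side, ds]; omega)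
      · rcases eq_or_lt_of_le hb0 with hb0 | hb0
        · subst hb0
          exact patC h hn hM (fun hh => d12 ⟨hh, rfl⟩) (fun hh => d13 ⟨hh, rfl⟩)
            (fun hh => d23 ⟨hh, rfl⟩)
        · have hbM : b₁ = M := by
            by_contra hne
            exact hb ⟨hb0, lt_of_le_of_ne hb3 hne⟩
          subst hbM
          have h' := h.flip
          rw [sub_self] at h'
          exact patC h' hn hM (fun hh => d12 ⟨hh, rfl⟩) (fun hh => d13 ⟨hh, rfl⟩)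
            (fun hh => d23 ⟨hh, rfl⟩)
    · subst e12
      exact low h hb0 l23 hb3 (fun hh => d12 ⟨hh, rfl⟩)
  · rcases eq_or_lt_of_le hb23 with e23 | l23
    · subst e23
      have h' := h.flip.perm12.perm23
      exact low h' (by omega) (by omega) (by omega) (fun hh => d23 ⟨hh, rfl⟩)
    · exfalso
      obtain ⟨k2, r2, e2, p2, q2⟩ := mod_rep n (a₂ - a₁) hn0
      obtain ⟨k3, r3, e3, p3, q3⟩ := mod_rep n (a₃ - a₁) hn0
      have h' := (h.shift (-a₁)).modEq 0 k2 k3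
      have e1 : a₁ + -a₁ + n * 0 = 0 := by ring
      have e2' : a₂ + -a₁ + n * k2 = r2 := by rw [← e2]; ring
      have e3' : a₃ + -a₁ + n * k3 = r3 := by rw [← e3]; ring
      rw [e1, e2', e3'] at h'
      exact patA h' hn hb0 l12 l23 hb3 p2 q2 p3 q3

/-- **Lower bound.** A resolving triple of distinct points forces `Bd n M`. -/
theorem core {a₁ b₁ a₂ b₂ a₃ b₃ : ℤ} (h : Res n M a₁ b₁ a₂ b₂ a₃ b₃)
    (hn : 4 ≤ n) (hM : 1 ≤ M) (hb1 : 0 ≤ b₁ ∧ b₁ ≤ M) (hb2 : 0 ≤ b₂ ∧ b₂ ≤ M)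
    (hb3 : 0 ≤ b₃ ∧ b₃ ≤ M)
    (d12 : ¬ (n ∣ a₂ - a₁ ∧ b₁ = b₂)) (d13 : ¬ (n ∣ a₃ - a₁ ∧ b₁ = b₃))
    (d23 : ¬ (n ∣ a₃ - a₂ ∧ b₂ = b₃)) : Bd n M := by
  have sym : ∀ {a a' b b' : ℤ}, ¬ (n ∣ a' - a ∧ b = b') → ¬ (n ∣ a - a' ∧ b' = b) := by
    intro a a' b b' hh hk
    refine hh ⟨?_, hk.2.symm⟩
    have e : a' - a = -(a - a') := by ring
    rw [e]; exact (Int.dvd_neg).2 hk.1
  rcases le_total b₁ b₂ with s12 | s12
  · rcases le_total b₂ b₃ with s23 | s23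
    · exact core_le h hn hM hb1.1 s12 s23 hb3.2 d12 d13 d23
    · rcases le_total b₁ b₃ with s13 | s13
      · exact core_le h.perm23 hn hM hb1.1 s13 s23 hb2.2 d13 d12 (sym d23)
      · exact core_le h.perm23.perm12 hn hM hb3.1 s13 s12 hb2.2 (sym d13) (sym d23) d12
  · rcases le_total b₂ b₃ with s23 | s23
    · rcases le_total b₁ b₃ with s13 | s13
      · exact core_le h.perm12 hn hM hb2.1 s12 s13 hb3.2 (sym d12) d23 d13
      · exact core_le h.perm12.perm23 hn hM hb2.1 s23 s13 hb1.2 d23 (sym d12) (sym d13)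
    · exact core_le h.perm12.perm23.perm12 hn hM hb3.1 s23 s12 hb1.2 (sym d23) (sym d13) (sym d12)

end Pool.Agent.J6H77.Mdim
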