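import Pool.Agent.J6H77.Mdim.Graph
import Pool.Agent.J6H77.Mdim.Lower
import Pool.Agent.J6H77.Mdim.Exists3

namespace Pool.Agent.J6H77.Mdim

open SimpleGraph

section general
variable {V : Type*} {G : SimpleGraph V}

theorem mdim_le {S : Finset V} (h : IsMsResolving G S) {k : ℕ} (hk : S.card = k) :
    mdim G ≤ k := by
  rw [← hk]; exact iInf₂_le S h

theorem le_mdim {k : ℕ} (h : ∀ S : Finset V, IsMsResolving G S → k ≤ S.card) :
    (k : ℕ∞) ≤ mdim G :=
  le_iInf₂ fun S hS => by exact_mod_cast h S hS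

theorem mdim_top (h : ∀ S : Finset V, ¬ IsMsResolving G S) : mdim G = ⊤ := by
  unfold mdim
  simp only [iInf_eq_top]
  intro S hS
  exact absurd hS (h S)

end general

theorem ms3_of_same3 {a b c a' b' c' : ℕ}
    (h : Same3 (a : ℤ) b c a' b' c') : ({a, b, c} : Multiset ℕ) = {a', b', c'} := by
  unfold Same3 at h
  norm_cast at h
  rcases h with ⟨rfl, rfl, rfl⟩ | ⟨rfl, rfl, rfl⟩ | ⟨rfl, rfl, rfl⟩ | ⟨rfl, rfl, rfl⟩ |
    ⟨rfl, rfl, rfl⟩ | ⟨rfl, rfl, rfl⟩ <;>
  (ext t; simp only [Multiset.insert_eq_cons, Multiset.count_cons, Multiset.count_singleton]) <;>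
  ring

theorem perm3 {a b c a' b' c' : ℕ} (h : [a, b, c].Perm [a', b', c']) :
    Same3 (a : ℤ) b c a' b' c' := by
  rw [← List.mem_permutations'] at h
  simp only [List.permutations', List.permutations'Aux, List.flatMap_cons, List.flatMap_nil,
    List.map_cons, List.map_nil, List.append_nil, List.cons_append, List.nil_append,
    List.mem_cons, List.not_mem_nil, or_false, List.cons.injEq, and_true] at h
  unfold Same3
  norm_cast
  tauto

theorem same3_of_ms3 {a b c a' b' c' : ℕ}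
    (h : ({a, b, c} : Multiset ℕ) = {a', b', c'}) : Same3 (a : ℤ) b c a' b' c' :=
  perm3 (Multiset.coe_eq_coe.1 h)


section three
variable {V : Type*} [DecidableEq V] {G : SimpleGraph V}

theorem msRep_three {a b c : V} (hab : a ≠ b) (hac : a ≠ c) (hbc : b ≠ c) (u : V) :
    msRep G {a, b, c} u = {G.dist u a, G.dist u b, G.dist u c} := by
  unfold msRep
  rw [Finset.insert_val_of_notMem (by simp [hab, hac]), Finset.insert_val_of_notMem (by simp [hbc])]
  simp

end three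

theorem dz_cast {n m : ℕ} (hn : 3 ≤ n) (u v : Fin n × Fin m) :
    (((cyl n m).dist u v : ℕ) : ℤ) = dz n (u.1 : ℕ) (u.2 : ℕ) (v.1 : ℕ) (v.2 : ℕ) := by
  have h1 := u.1.2; have h2 := v.1.2; have h3 := u.2.2; have h4 := v.2.2
  rw [dist_cyl hn, dz_eq (by omega) (by omega) (by omega)]
  simp only [nd, ad]
  omega

/-- integer coordinates determine a vertex -/
theorem ex_vertex {n m : ℕ} (hn : 0 < n) (x y : ℤ) (hy0 : 0 ≤ y) (hy1 : y ≤ (m : ℤ) - 1) :
    ∃ u : Fin n × Fin m, ((u.1 : ℕ) : ℤ) = x % n ∧ ((u.2 : ℕ) : ℤ) = y := by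
  have h1 := Int.emod_nonneg x (b := (n : ℤ)) (by omega)
  have h2 := Int.emod_lt_of_pos x (b := (n : ℤ)) (by omega)
  refine ⟨(⟨(x % n).toNat, by omega⟩, ⟨y.toNat, by omega⟩), ?_, ?_⟩
  · simp only; omega
  · simp only; omega

/-- A resolving set of size three gives an integer resolving triple. -/
theorem res_of_resolving {n m : ℕ} (hn : 3 ≤ n) {a b c : Fin n × Fin m} (hab : a ≠ b)
    (hac : a ≠ c) (hbc : b ≠ c) (h : IsMsResolving (cyl n m) {a, b, c}) :
    Res n ((m : ℤ) - 1) (a.1 : ℕ) (a.2 : ℕ) (b.1 : ℕ) (b.2 : ℕ) (c.1 : ℕ) (c.2 : ℕ) := by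
  intro x y x' y' h1 h2 h3 h4 hc
  obtain ⟨u, hu1, hu2⟩ := ex_vertex (n := n) (m := m) (by omega) x y h1 h2
  obtain ⟨v, hv1, hv2⟩ := ex_vertex (n := n) (m := m) (by omega) x' y' h3 h4
  have key : ∀ (w s : Fin n × Fin m) (x y : ℤ), ((w.1 : ℕ) : ℤ) = x % n → ((w.2 : ℕ) : ℤ) = y →
      dz n x y (s.1 : ℕ) (s.2 : ℕ) = (((cyl n m).dist w s : ℕ) : ℤ) := by
    intro w s x y e1 e2
    rw [dz_cast hn, e1, e2, dz_emod]
  rw [key u a x y hu1 hu2, key u b x y hu1 hu2, key u c x y hu1 hu2, key v a x' y' hv1 hv2,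
    key v b x' y' hv1 hv2, key v c x' y' hv1 hv2] at hc
  have e := h u v (by
    rw [msRep_three hab hac hbc, msRep_three hab hac hbc]
    exact ms3_of_same3 hc)
  subst e
  refine ⟨by rw [← hu2, hv2], ?_⟩
  have e3 : x % n = x' % n := by rw [← hu1, hv1]
  exact Int.dvd_of_emod_eq_zero (by
    rw [Int.sub_emod, e3, sub_self, Int.zero_emod])

/-- An integer resolving triple gives a resolving set of size three. -/
theorem resolving_of_res {n m : ℕ} (hn : 3 ≤ n) {a b c : Fin n × Fin m} (hab : a ≠ b)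
    (hac : a ≠ c) (hbc : b ≠ c)
    (h : Res n ((m : ℤ) - 1) (a.1 : ℕ) (a.2 : ℕ) (b.1 : ℕ) (b.2 : ℕ) (c.1 : ℕ) (c.2 : ℕ)) :
    IsMsResolving (cyl n m) {a, b, c} := by
  intro u v huv
  rw [msRep_three hab hac hbc, msRep_three hab hac hbc] at huv
  have h3 := same3_of_ms3 huv
  simp only [dz_cast hn] at h3
  have hu1 := u.1.2; have hu2 := u.2.2; have hv1 := v.1.2; have hv2 := v.2.2
  obtain ⟨e1, e2⟩ := h _ _ _ _ (by omega) (by omega) (by omega) (by omega) h3
  obtain ⟨k, hk⟩ := e2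
  have : k = 0 := by
    rcases lt_trichotomy k 0 with h | h | h
    · have : (n : ℤ) * k ≤ n * (-1) := Int.mul_le_mul_of_nonneg_left (by omega) (by omega)
      omega
    · exact h
    · have : (n : ℤ) * 1 ≤ n * k := Int.mul_le_mul_of_nonneg_left (by omega) (by omega)
      omega
  subst this
  ext
  · omega
  · omega

/-- No resolving set with at most two vertices. -/
theorem three_le {n m : ℕ} (hn : 3 ≤ n) (hm : 1 ≤ m) {S : Finset (Fin n × Fin m)}
    (h : IsMsResolving (cyl n m) S) : 3 ≤ S.card := by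
  by_contra hlt
  have hcases : S.card = 0 ∨ S.card = 1 ∨ S.card = 2 := by omega
  rcases hcases with h0 | h1 | h2
  · rw [Finset.card_eq_zero] at h0
    subst h0
    have := h (⟨0, by omega⟩, ⟨0, by omega⟩) (⟨1, by omega⟩, ⟨0, by omega⟩) (by simp [msRep])
    simp at this
  · obtain ⟨s, rfl⟩ := Finset.card_eq_one.1 h1
    -- the two neighbours on the cycle
    obtain ⟨u, hu1, hu2⟩ := ex_vertex (n := n) (m := m) (by omega) (((s.1 : ℕ) : ℤ) + 1)
      ((s.2 : ℕ) : ℤ) (by omega) (by have := s.2.2; omega)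
    obtain ⟨v, hv1, hv2⟩ := ex_vertex (n := n) (m := m) (by omega) (((s.1 : ℕ) : ℤ) - 1)
      ((s.2 : ℕ) : ℤ) (by omega) (by have := s.2.2; omega)
    have eu : (((cyl n m).dist u s : ℕ) : ℤ) = 1 := by
      rw [dz_cast hn, hu1, hu2, dz_emod, dz_eq (by omega) (by omega) (by omega)]
      omega
    have ev : (((cyl n m).dist v s : ℕ) : ℤ) = 1 := by
      rw [dz_cast hn, hv1, hv2, dz_emod, dz_eq (by omega) (by omega) (by omega)]
      omega
    have huv : u = v := h u v (by simp [msRep]; omega)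
    subst huv
    have e3 : (((s.1 : ℕ) : ℤ) + 1) % n = (((s.1 : ℕ) : ℤ) - 1) % n := by rw [← hu1, hv1]
    have e4 : (n : ℤ) ∣ 2 := by
      have := Int.emod_emod_of_dvd
      have h5 := Int.emod_eq_emod_iff_emod_sub_eq_zero.1 e3
      have h6 : ((s.1 : ℕ) : ℤ) + 1 - (((s.1 : ℕ) : ℤ) - 1) = 2 := by ring
      rw [h6] at h5
      exact Int.dvd_of_emod_eq_zero h5
    have := Int.le_of_dvd (by norm_num) e4
    omega
  · obtain ⟨s, t, hst, rfl⟩ := Finset.card_eq_two.1 h2
    apply hst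
    apply h
    simp only [msRep, Finset.insert_val_of_notMem (Finset.notMem_singleton.2 hst)]
    simp only [Multiset.map_cons, Finset.singleton_val, Multiset.map_singleton, SimpleGraph.dist_self]
    rw [SimpleGraph.dist_comm (u := t) (v := s)]
    exact Multiset.cons_swap _ _ _

theorem vertex_ne {n m : ℕ} {a b : Fin n × Fin m} (h : a ≠ b) :
    ¬ ((n : ℤ) ∣ ((b.1 : ℕ) : ℤ) - ((a.1 : ℕ) : ℤ) ∧ ((a.2 : ℕ) : ℤ) = ((b.2 : ℕ) : ℤ)) := by
  rintro ⟨⟨k, hk⟩, h2⟩
  have ha := a.1.2; have hb := b.1.2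
  have : k = 0 := by
    rcases lt_trichotomy k 0 with h | h | h
    · have : (n : ℤ) * k ≤ n * (-1) := Int.mul_le_mul_of_nonneg_left (by omega) (by omega)
      omega
    · exact h
    · have : (n : ℤ) * 1 ≤ n * k := Int.mul_le_mul_of_nonneg_left (by omega) (by omega)
      omega
  subst this
  apply h
  ext
  · omega
  · omega

/-- For `m ≥ 2` a resolving set with three vertices forces the bound. -/
theorem bd_of_card_three {n m : ℕ} (hn : 4 ≤ n) (hm : 2 ≤ m) {S : Finset (Fin n × Fin m)}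
    (h : IsMsResolving (cyl n m) S) (hS : S.card = 3) : Bd n ((m : ℤ) - 1) := by
  obtain ⟨a, b, c, hab, hac, hbc, rfl⟩ := Finset.card_eq_three.1 hS
  have hres := res_of_resolving (by omega) hab hac hbc h
  have h1 := a.2.2; have h2 := b.2.2; have h3 := c.2.2
  exact core hres (by omega) (by omega) (by omega) (by omega) (by omega) (vertex_ne hab)
    (vertex_ne hac) (vertex_ne hbc)

theorem four_le {n m : ℕ} (hn : 4 ≤ n) (hm : 2 ≤ m) (hB : ¬ Bd n ((m : ℤ) - 1))
    {S : Finset (Fin n × Fin m)} (h : IsMsResolving (cyl n m) S) : 4 ≤ S.card := by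
  have h3 := three_le (by omega) (by omega) h
  by_contra hlt
  exact hB (bd_of_card_three hn hm h (by omega))

/-- Existence of a resolving triple. -/
theorem ex_three {n m : ℕ} (hn : 4 ≤ n) (hm : 2 ≤ m) (hB : Bd n ((m : ℤ) - 1)) :
    ∃ S : Finset (Fin n × Fin m), IsMsResolving (cyl n m) S ∧ S.card = 3 := by
  obtain ⟨a₂, a₃, b₃, h1, h2, h3, h4, h5, h6, h7, hres⟩ := exists3 (by omega) (by omega) hB
  let a : Fin n × Fin m := (⟨0, by omega⟩, ⟨0, by omega⟩)
  let b : Fin n × Fin m := (⟨a₂.toNat, by omega⟩, ⟨0, by omega⟩)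
  let c : Fin n × Fin m := (⟨a₃.toNat, by omega⟩, ⟨b₃.toNat, by omega⟩)
  have hab : a ≠ b := by
    intro h
    have := congrArg (fun u : Fin n × Fin m => (u.1 : ℕ)) h
    simp only [a, b] at this
    omega
  have hac : a ≠ c := by
    intro h
    have e1 := congrArg (fun u : Fin n × Fin m => (u.1 : ℕ)) h
    have e2 := congrArg (fun u : Fin n × Fin m => (u.2 : ℕ)) h
    simp only [a, c] at e1 e2
    omega
  have hbc : b ≠ c := by
    intro h
    have e1 := congrArg (fun u : Fin n × Fin m => (u.1 : ℕ)) h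
    have e2 := congrArg (fun u : Fin n × Fin m => (u.2 : ℕ)) h
    simp only [b, c] at e1 e2
    omega
  refine ⟨{a, b, c}, resolving_of_res (by omega) hab hac hbc ?_, ?_⟩
  · have e0 : ((a.1 : ℕ) : ℤ) = 0 := rfl
    have e1 : ((a.2 : ℕ) : ℤ) = 0 := rfl
    have e2 : ((b.1 : ℕ) : ℤ) = a₂ := by simp only [b]; omega
    have e3 : ((b.2 : ℕ) : ℤ) = 0 := rfl
    have e4 : ((c.1 : ℕ) : ℤ) = a₃ := by simp only [c]; omega
    have e5 : ((c.2 : ℕ) : ℤ) = b₃ := by simp only [c]; omega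
    rw [e0, e2, e4, e5]
    exact hres
  · exact Finset.card_eq_three.2 ⟨a, b, c, hab, hac, hbc, rfl⟩

end Pool.Agent.J6H77.Mdim
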