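import Mathlib

namespace Pool.Agent.J6H77.Mdim

/-- Cyclic distance as a periodic function of the displacement. -/
def pc (n t : ℤ) : ℤ := min (t % n) (n - t % n)

/-- The distance in the cylinder (integer coordinates) between `(x, y)` and `(a, b)`. -/
def dz (n x y a b : ℤ) : ℤ := pc n (x - a) + max (y - b) (b - y)

/-- Equality of the multisets `{a, b, c}` and `{a', b', c'}`, spelled out. -/
def Same3 (a b c a' b' c' : ℤ) : Prop :=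
  (a = a' ∧ b = b' ∧ c = c') ∨ (a = b' ∧ b = a' ∧ c = c') ∨ (a = c' ∧ b = b' ∧ c = a') ∨
  (a = a' ∧ b = c' ∧ c = b') ∨ (a = b' ∧ b = c' ∧ c = a') ∨ (a = c' ∧ b = a' ∧ c = b')

/-- The three points `(a₁,b₁)`, `(a₂,b₂)`, `(a₃,b₃)` form a multiset resolving triple of the
cylinder with cycle length `n` and rows `0, …, M`. -/
def Res (n M a₁ b₁ a₂ b₂ a₃ b₃ : ℤ) : Prop :=
  ∀ x y x' y' : ℤ, 0 ≤ y → y ≤ M → 0 ≤ y' → y' ≤ M →
    Same3 (dz n x y a₁ b₁) (dz n x y a₂ b₂) (dz n x y a₃ b₃)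
      (dz n x' y' a₁ b₁) (dz n x' y' a₂ b₂) (dz n x' y' a₃ b₃) → y = y' ∧ n ∣ x' - x

theorem pc_eq {n t : ℤ} (hn : 0 < n) (h1 : t ≤ n) (h2 : -n ≤ t) :
    pc n t = min (max t (-t)) (n - max t (-t)) := by
  unfold pc
  rcases lt_or_ge t 0 with h | h
  · rcases eq_or_lt_of_le h2 with h3 | h3
    · have : t % n = 0 := by
        rw [← h3]; simp
      rw [this]; omega
    · have : t % n = t + n := by
        rw [← Int.add_emod_right]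
        exact Int.emod_eq_of_lt (by omega) (by omega)
      rw [this]; omega
  · rcases eq_or_lt_of_le h1 with h3 | h3
    · have : t % n = 0 := by rw [h3]; simp
      rw [this]; omega
    · have : t % n = t := Int.emod_eq_of_lt h h3
      rw [this]; omega

theorem pc_neg {n t : ℤ} (hn : 0 < n) : pc n (-t) = pc n t := by
  unfold pc
  have h0 := Int.emod_nonneg t hn.ne'
  have h1 := Int.emod_lt_of_pos t hn
  rcases eq_or_ne (t % n) 0 with h | h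
  · have : (-t) % n = 0 := by
      apply Int.emod_eq_zero_of_dvd
      exact (Int.dvd_neg).2 (Int.dvd_of_emod_eq_zero h)
    rw [h, this]
  · have : (-t) % n = n - t % n := by
      have e : -t = (n - t % n) + n * (-(t / n) - 1) := by
        have := Int.emod_add_mul_ediv t n
        linarith [this]
      rw [e, Int.add_mul_emod_self_left]
      exact Int.emod_eq_of_lt (by omega) (by omega)
    rw [this]; omega

theorem pc_add_mul {n t k : ℤ} : pc n (t + n * k) = pc n t := by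
  unfold pc; rw [Int.add_mul_emod_self_left]


theorem dz_eq {n x y a b : ℤ} (hn : 0 < n) (h1 : x - a ≤ n) (h2 : a - x ≤ n) :
    dz n x y a b = min (max (x - a) (a - x)) (n - max (x - a) (a - x)) + max (y - b) (b - y) := by
  unfold dz
  rw [pc_eq hn h1 (by omega)]
  have : -(x - a) = a - x := by ring
  rw [this]

/-- The side conditions on a candidate collision. -/
def Side (n M a₁ a₂ a₃ x y x' y' : ℤ) : Prop :=
  0 ≤ y ∧ y ≤ M ∧ 0 ≤ y' ∧ y' ≤ M ∧ x - a₁ ≤ n ∧ a₁ - x ≤ n ∧ x - a₂ ≤ n ∧ a₂ - x ≤ n ∧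
  x - a₃ ≤ n ∧ a₃ - x ≤ n ∧ x' - a₁ ≤ n ∧ a₁ - x' ≤ n ∧ x' - a₂ ≤ n ∧ a₂ - x' ≤ n ∧
  x' - a₃ ≤ n ∧ a₃ - x' ≤ n ∧ (y ≠ y' ∨ (x ≠ x' ∧ x - x' < n ∧ x' - x < n))

/-- Explicit distance. -/
def ds (n x y a b : ℤ) : ℤ :=
  min (max (x - a) (a - x)) (n - max (x - a) (a - x)) + max (y - b) (b - y)

theorem Res.contra {n M a₁ b₁ a₂ b₂ a₃ b₃ : ℤ} (h : Res n M a₁ b₁ a₂ b₂ a₃ b₃) (hn : 0 < n)
    (x y x' y' : ℤ) (hs : Side n M a₁ a₂ a₃ x y x' y')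
    (hc : Same3 (ds n x y a₁ b₁) (ds n x y a₂ b₂) (ds n x y a₃ b₃)
      (ds n x' y' a₁ b₁) (ds n x' y' a₂ b₂) (ds n x' y' a₃ b₃)) : False := by
  obtain ⟨h1, h2, h3, h4, h5, h6, h7, h8, h9, h10, h11, h12, h13, h14, h15, h16, hne⟩ := hs
  have := h x y x' y' h1 h2 h3 h4 (by
    rw [dz_eq hn h5 h6, dz_eq hn h7 h8, dz_eq hn h9 h10, dz_eq hn h11 h12, dz_eq hn h13 h14,
      dz_eq hn h15 h16]
    exact hc)
  obtain ⟨e1, e2⟩ := this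
  rcases hne with hne | ⟨ha, hb, hc⟩
  · exact hne e1
  · obtain ⟨k, hk⟩ := e2
    rcases lt_trichotomy k 0 with h | h | h
    · have : n * k ≤ n * (-1) := Int.mul_le_mul_of_nonneg_left (by omega) hn.le
      omega
    · subst h; apply ha; omega
    · have : n * 1 ≤ n * k := Int.mul_le_mul_of_nonneg_left (by omega) hn.le
      omega

section
variable {n M a₁ b₁ a₂ b₂ a₃ b₃ : ℤ}

theorem Res.cId (h : Res n M a₁ b₁ a₂ b₂ a₃ b₃) (hn : 0 < n)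
    (x y x' y' : ℤ) (hs : Side n M a₁ a₂ a₃ x y x' y')
    (e1 : ds n x y a₁ b₁ = ds n x' y' a₁ b₁) (e2 : ds n x y a₂ b₂ = ds n x' y' a₂ b₂)
    (e3 : ds n x y a₃ b₃ = ds n x' y' a₃ b₃) : False :=
  h.contra hn x y x' y' hs (Or.inl ⟨e1, e2, e3⟩)

theorem Res.c12 (h : Res n M a₁ b₁ a₂ b₂ a₃ b₃) (hn : 0 < n)
    (x y x' y' : ℤ) (hs : Side n M a₁ a₂ a₃ x y x' y')
    (e1 : ds n x y a₁ b₁ = ds n x' y' a₂ b₂) (e2 : ds n x y a₂ b₂ = ds n x' y' a₁ b₁)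
    (e3 : ds n x y a₃ b₃ = ds n x' y' a₃ b₃) : False :=
  h.contra hn x y x' y' hs (Or.inr (Or.inl ⟨e1, e2, e3⟩))

theorem Res.c13 (h : Res n M a₁ b₁ a₂ b₂ a₃ b₃) (hn : 0 < n)
    (x y x' y' : ℤ) (hs : Side n M a₁ a₂ a₃ x y x' y')
    (e1 : ds n x y a₁ b₁ = ds n x' y' a₃ b₃) (e2 : ds n x y a₂ b₂ = ds n x' y' a₂ b₂)
    (e3 : ds n x y a₃ b₃ = ds n x' y' a₁ b₁) : False :=
  h.contra hn x y x' y' hs (Or.inr (Or.inr (Or.inl ⟨e1, e2, e3⟩)))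

theorem Res.c23 (h : Res n M a₁ b₁ a₂ b₂ a₃ b₃) (hn : 0 < n)
    (x y x' y' : ℤ) (hs : Side n M a₁ a₂ a₃ x y x' y')
    (e1 : ds n x y a₁ b₁ = ds n x' y' a₁ b₁) (e2 : ds n x y a₂ b₂ = ds n x' y' a₃ b₃)
    (e3 : ds n x y a₃ b₃ = ds n x' y' a₂ b₂) : False :=
  h.contra hn x y x' y' hs (Or.inr (Or.inr (Or.inr (Or.inl ⟨e1, e2, e3⟩))))

/-- three-cycle, first form -/
theorem Res.cA (h : Res n M a₁ b₁ a₂ b₂ a₃ b₃) (hn : 0 < n)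
    (x y x' y' : ℤ) (hs : Side n M a₁ a₂ a₃ x y x' y')
    (e1 : ds n x y a₁ b₁ = ds n x' y' a₂ b₂) (e2 : ds n x y a₂ b₂ = ds n x' y' a₃ b₃)
    (e3 : ds n x y a₃ b₃ = ds n x' y' a₁ b₁) : False :=
  h.contra hn x y x' y' hs (Or.inr (Or.inr (Or.inr (Or.inr (Or.inl ⟨e1, e2, e3⟩)))))

/-- three-cycle, second form -/
theorem Res.cB (h : Res n M a₁ b₁ a₂ b₂ a₃ b₃) (hn : 0 < n)
    (x y x' y' : ℤ) (hs : Side n M a₁ a₂ a₃ x y x' y')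
    (e1 : ds n x y a₁ b₁ = ds n x' y' a₃ b₃) (e2 : ds n x y a₂ b₂ = ds n x' y' a₁ b₁)
    (e3 : ds n x y a₃ b₃ = ds n x' y' a₂ b₂) : False :=
  h.contra hn x y x' y' hs (Or.inr (Or.inr (Or.inr (Or.inr (Or.inr ⟨e1, e2, e3⟩)))))

/-! ### Symmetries -/

theorem Same3.perm12 {a b c a' b' c' : ℤ} (h : Same3 b a c b' a' c') : Same3 a b c a' b' c' := by
  rcases h with ⟨e1, e2, e3⟩ | ⟨e1, e2, e3⟩ | ⟨e1, e2, e3⟩ | ⟨e1, e2, e3⟩ | ⟨e1, e2, e3⟩ |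
    ⟨e1, e2, e3⟩
  · exact Or.inl ⟨e2, e1, e3⟩
  · exact Or.inr (Or.inl ⟨e2, e1, e3⟩)
  · exact Or.inr (Or.inr (Or.inr (Or.inl ⟨e2, e1, e3⟩)))
  · exact Or.inr (Or.inr (Or.inl ⟨e2, e1, e3⟩))
  · exact Or.inr (Or.inr (Or.inr (Or.inr (Or.inr ⟨e2, e1, e3⟩))))
  · exact Or.inr (Or.inr (Or.inr (Or.inr (Or.inl ⟨e2, e1, e3⟩))))

theorem Same3.perm23 {a b c a' b' c' : ℤ} (h : Same3 a c b a' c' b') : Same3 a b c a' b' c' := by
  rcases h with ⟨e1, e2, e3⟩ | ⟨e1, e2, e3⟩ | ⟨e1, e2, e3⟩ | ⟨e1, e2, e3⟩ | ⟨e1, e2, e3⟩ |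
    ⟨e1, e2, e3⟩
  · exact Or.inl ⟨e1, e3, e2⟩
  · exact Or.inr (Or.inr (Or.inl ⟨e1, e3, e2⟩))
  · exact Or.inr (Or.inl ⟨e1, e3, e2⟩)
  · exact Or.inr (Or.inr (Or.inr (Or.inl ⟨e1, e3, e2⟩)))
  · exact Or.inr (Or.inr (Or.inr (Or.inr (Or.inr ⟨e1, e3, e2⟩))))
  · exact Or.inr (Or.inr (Or.inr (Or.inr (Or.inl ⟨e1, e3, e2⟩))))

theorem Res.perm12 (h : Res n M a₁ b₁ a₂ b₂ a₃ b₃) : Res n M a₂ b₂ a₁ b₁ a₃ b₃ :=
  fun x y x' y' h1 h2 h3 h4 hc => h x y x' y' h1 h2 h3 h4 hc.perm12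

theorem Res.perm23 (h : Res n M a₁ b₁ a₂ b₂ a₃ b₃) : Res n M a₁ b₁ a₃ b₃ a₂ b₂ :=
  fun x y x' y' h1 h2 h3 h4 hc => h x y x' y' h1 h2 h3 h4 hc.perm23

theorem Res.shift (h : Res n M a₁ b₁ a₂ b₂ a₃ b₃) (t : ℤ) :
    Res n M (a₁ + t) b₁ (a₂ + t) b₂ (a₃ + t) b₃ := by
  intro x y x' y' h1 h2 h3 h4 hc
  have key : ∀ x y a b, dz n x y (a + t) b = dz n (x - t) y a b := by
    intro x y a b; unfold dz; congr 2; ring
  simp only [key] at hc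
  have := h _ _ _ _ h1 h2 h3 h4 hc
  have e : x' - t - (x - t) = x' - x := by ring
  rwa [e] at this

theorem Res.refl (hn : 0 < n) (h : Res n M a₁ b₁ a₂ b₂ a₃ b₃) :
    Res n M (-a₁) b₁ (-a₂) b₂ (-a₃) b₃ := by
  intro x y x' y' h1 h2 h3 h4 hc
  have key : ∀ x y a b, dz n x y (-a) b = dz n (-x) y a b := by
    intro x y a b; unfold dz
    rw [← pc_neg hn]; congr 2; ring
  simp only [key] at hc
  have := h _ _ _ _ h1 h2 h3 h4 hc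
  refine ⟨this.1, ?_⟩
  have e : x' - x = -(-x' - -x) := by ring
  rw [e]; exact (Int.dvd_neg).2 this.2

theorem Res.flip (h : Res n M a₁ b₁ a₂ b₂ a₃ b₃) :
    Res n M a₁ (M - b₁) a₂ (M - b₂) a₃ (M - b₃) := by
  intro x y x' y' h1 h2 h3 h4 hc
  have key : ∀ x y a b, dz n x y a (M - b) = dz n x (M - y) a b := by
    intro x y a b; unfold dz; congr 1
    rw [max_comm]; congr 1 <;> ring
  simp only [key] at hc
  have := h _ _ _ _ (by omega) (by omega) (by omega) (by omega) hc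
  refine ⟨by omega, this.2⟩

theorem dz_mod (x y a b k : ℤ) : dz n x y (a + n * k) b = dz n x y a b := by
  unfold dz
  have : x - (a + n * k) = (x - a) + n * (-k) := by ring
  rw [this, pc_add_mul]

theorem Res.modEq (h : Res n M a₁ b₁ a₂ b₂ a₃ b₃) (k₁ k₂ k₃ : ℤ) :
    Res n M (a₁ + n * k₁) b₁ (a₂ + n * k₂) b₂ (a₃ + n * k₃) b₃ := by
  intro x y x' y' h1 h2 h3 h4 hc
  simp only [dz_mod] at hc
  exact h _ _ _ _ h1 h2 h3 h4 hc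

end

theorem ex_add (A B C D T : ℤ) (h1 : A ≤ B) (h2 : C ≤ D) (h3 : A + C ≤ T) (h4 : T ≤ B + D) :
    ∃ j y : ℤ, j + y = T ∧ A ≤ j ∧ j ≤ B ∧ C ≤ y ∧ y ≤ D :=
  ⟨max A (T - D), T - max A (T - D), by omega, by omega, by omega, by omega, by omega⟩

theorem ex_sub (A B C D T : ℤ) (h1 : A ≤ B) (h2 : C ≤ D) (h3 : A - D ≤ T) (h4 : T ≤ B - C) :
    ∃ j y : ℤ, j - y = T ∧ A ≤ j ∧ j ≤ B ∧ C ≤ y ∧ y ≤ D :=
  ⟨max A (T + C), max A (T + C) - T, by omega, by omega, by omega, by omega, by omega⟩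

end Pool.Agent.J6H77.Mdim
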