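import Pool.Agent.J6H77.Mdim.Bridge

namespace Pool.Agent.J6H77.Mdim

open SimpleGraph

/-! ### Encoding multisets by base-16 numbers -/

theorem code_decomp (k : ℕ) (s : Multiset ℕ) : ∃ low high : ℕ,
    (s.map (16 ^ ·)).sum = low + s.count k * 16 ^ k + 16 ^ (k + 1) * high ∧
      16 * low ≤ Multiset.card s * 16 ^ k := by
  induction s using Multiset.induction_on with
  | empty => exact ⟨0, 0, by simp, by simp⟩
  | cons x s ih =>
    obtain ⟨low, high, h1, h2⟩ := ih
    rw [Multiset.map_cons, Multiset.sum_cons, h1]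
    rcases lt_trichotomy x k with h | h | h
    · refine ⟨low + 16 ^ x, high, ?_, ?_⟩
      · rw [Multiset.count_cons_of_ne (by omega)]; ring
      · have h3 : (16 : ℕ) ^ (x + 1) ≤ 16 ^ k := Nat.pow_le_pow_right (by norm_num) h
        rw [Multiset.card_cons]
        rw [pow_succ] at h3
        nlinarith
    · subst h
      refine ⟨low, high, ?_, ?_⟩
      · rw [Multiset.count_cons_self]; ring
      · rw [Multiset.card_cons]
        nlinarith [Nat.zero_le ((16 : ℕ) ^ x)]
    · obtain ⟨d, rfl⟩ : ∃ d, x = k + 1 + d := ⟨x - (k + 1), by omega⟩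
      refine ⟨low, high + 16 ^ d, ?_, ?_⟩
      · rw [Multiset.count_cons_of_ne (by omega), pow_add 16 (k + 1) d]; ring
      · rw [Multiset.card_cons]
        nlinarith [Nat.zero_le ((16 : ℕ) ^ k)]

theorem code_count {k : ℕ} {s : Multiset ℕ} (hs : Multiset.card s < 16) :
    ((s.map (16 ^ ·)).sum / 16 ^ k) % 16 = s.count k := by
  obtain ⟨low, high, h1, h2⟩ := code_decomp k s
  have hpos : 0 < (16 : ℕ) ^ k := by positivity
  have hlow : low < 16 ^ k := by
    have : Multiset.card s * 16 ^ k < 16 * 16 ^ k := Nat.mul_lt_mul_of_pos_right hs hpos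
    omega
  have hc : s.count k < 16 := lt_of_le_of_lt (Multiset.count_le_card k s) hs
  have e : low + s.count k * 16 ^ k + 16 ^ (k + 1) * high =
      low + (s.count k + 16 * high) * 16 ^ k := by ring
  rw [h1, e, Nat.add_mul_div_right _ _ hpos, Nat.div_eq_of_lt hlow]
  omega

theorem code_inj {s t : Multiset ℕ} (hs : Multiset.card s < 16) (ht : Multiset.card t < 16)
    (h : (s.map (16 ^ ·)).sum = (t.map (16 ^ ·)).sum) : s = t := by
  ext k
  rw [← code_count hs, ← code_count ht, h]

/-! ### The Boolean check -/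

/-- all vertices -/
def verts (n m : ℕ) : List (ℕ × ℕ) :=
  (List.range n).flatMap fun x => (List.range m).map fun y => (x, y)

/-- code contribution of `s` at `v` -/
def c1 (n : ℕ) (s v : ℕ × ℕ) : ℕ := 16 ^ (nd n v.1 s.1 + ad v.2 s.2)

/-- code contributions of the vertex `s` at the vertices of `look` -/
def vecL (look : List (ℕ × ℕ)) (n : ℕ) (s : ℕ × ℕ) : List ℕ := look.map (c1 n s)

/-- membership test (written with recursors, for evaluation in the kernel) -/
noncomputable def elemN (a : ℕ) (l : List ℕ) : Bool :=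
  List.rec (motive := fun _ => Bool) false
    (fun b _ ih => Bool.rec (motive := fun _ => Bool) ih true (Nat.beq a b)) l

/-- is there a repeated entry, or an entry already in `seen`? -/
noncomputable def hasDup (l : List ℕ) : List ℕ → Bool :=
  List.rec (motive := fun _ => List ℕ → Bool) (fun _ => false)
    (fun b _ ih seen => Bool.rec (motive := fun _ => Bool) (ih (b :: seen)) true (elemN b seen)) l

/-- pointwise sum of lists -/
noncomputable def addv (l : List ℕ) : List ℕ → List ℕ :=
  List.rec (motive := fun _ => List ℕ → List ℕ) (fun _ => [])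
    (fun a _ ih r => List.rec (motive := fun _ => List ℕ) []
      (fun b r' _ => (Nat.add a b) :: ih r') r) l

/-- check all sublists of length `k` -/
noncomputable def chk (L : List (List ℕ)) : ℕ → List ℕ → Bool :=
  List.rec (motive := fun _ => ℕ → List ℕ → Bool)
    (fun k acc => Nat.rec (motive := fun _ => Bool) (hasDup acc []) (fun _ _ => true) k)
    (fun v _ ih k acc => Nat.rec (motive := fun _ => Bool) (hasDup acc [])
      (fun k' _ => Bool.rec (motive := fun _ => Bool) false (ih (Nat.succ k') acc)
        (ih k' (addv v acc))) k) L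

/-- vertices in rows `≥ r`, except `(0, r)` -/
def cand (n m r : ℕ) : List (ℕ × ℕ) :=
  (verts n m).filter fun v => decide (r ≤ v.2) && !(v == (0, r))

/-- no resolving set of size `k + 1`; collisions are looked for in `look` -/
noncomputable def chkAll (n m k : ℕ) (look : List (ℕ × ℕ)) : Bool :=
  (List.range m).all fun r => chk ((cand n m r).map (vecL look n)) k (vecL look n (0, r))

/-- vertices listed by rows, in the given order of rows -/
def lookOf (n : ℕ) (rows : List ℕ) : List (ℕ × ℕ) :=
  rows.flatMap fun y => (List.range n).map fun x => (x, y)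

/-- an order of the rows, middle rows first -/
def midRows (m : ℕ) : List ℕ :=
  if m = 1 then [0] else if m = 2 then [0, 1] else if m = 3 then [1, 0, 2] else
  if m = 4 then [1, 2, 0, 3] else [2, 1, 3, 0, 4]

/-- `look` is a list of distinct vertices -/
def okLook (n m : ℕ) (look : List (ℕ × ℕ)) : Bool :=
  decide look.Nodup && look.all fun v => decide (v.1 < n) && decide (v.2 < m)

theorem mem_verts {n m : ℕ} {v : ℕ × ℕ} : v ∈ verts n m ↔ v.1 < n ∧ v.2 < m := by
  obtain ⟨x, y⟩ := v
  simp [verts]

theorem nodup_verts (n m : ℕ) : (verts n m).Nodup := by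
  unfold verts
  rw [List.nodup_flatMap]
  refine ⟨fun x _ => (List.nodup_range).map (fun a b h => (Prod.mk.inj h).2), ?_⟩
  refine (List.nodup_range (n := n)).imp ?_
  intro a b hab
  simp only [Function.onFun]
  intro x hx hx'
  simp only [List.mem_map] at hx hx'
  obtain ⟨_, _, rfl⟩ := hx
  obtain ⟨_, _, h⟩ := hx'
  exact hab (Prod.mk.inj h).1.symm

theorem elemN_iff (a : ℕ) (l : List ℕ) : elemN a l = true ↔ a ∈ l := by
  induction l with
  | nil => simp [elemN]
  | cons b l ih =>
    have e : elemN a (b :: l) = Bool.rec (motive := fun _ => Bool) (elemN a l) true (Nat.beq a b) :=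
      rfl
    rw [e]
    cases h : Nat.beq a b with
    | false =>
      have hne : a ≠ b := Nat.ne_of_beq_eq_false h
      simp [ih, hne]
    | true =>
      have heq : a = b := Nat.eq_of_beq_eq_true h
      simp [heq]

theorem hasDup_iff (l seen : List ℕ) :
    hasDup l seen = false ↔ l.Nodup ∧ ∀ b ∈ l, b ∉ seen := by
  induction l generalizing seen with
  | nil => simp [hasDup]
  | cons b l ih =>
    have e : hasDup (b :: l) seen = Bool.rec (motive := fun _ => Bool) (hasDup l (b :: seen)) true
      (elemN b seen) := rfl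
    rw [e]
    cases h : elemN b seen with
    | true =>
      have hb := (elemN_iff b seen).1 h
      simp [hb]
    | false =>
      have hb : b ∉ seen := by
        intro hb
        rw [(elemN_iff b seen).2 hb] at h
        exact absurd h (by simp)
      simp only [ih, List.nodup_cons, List.mem_cons, not_or]
      constructor
      · rintro ⟨h1, h2⟩
        refine ⟨⟨fun h3 => (h2 b h3).1 rfl, h1⟩, ?_⟩
        rintro c (rfl | hc)
        · exact hb
        · exact (h2 c hc).2
      · rintro ⟨⟨h1, h2⟩, h3⟩
        refine ⟨h2, fun c hc => ⟨?_, h3 c (Or.inr hc)⟩⟩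
        rintro rfl
        exact h1 hc

theorem addv_map {α : Type*} (F G : α → ℕ) (l : List α) :
    addv (l.map F) (l.map G) = l.map (fun v => F v + G v) := by
  induction l with
  | nil => rfl
  | cons a l ih =>
    simp only [List.map_cons]
    rw [← ih]
    rfl

theorem hasDup_map {l : List (ℕ × ℕ)} {F : ℕ × ℕ → ℕ} (h : hasDup (l.map F) [] = true)
    (hl : l.Nodup) : ∃ u ∈ l, ∃ v ∈ l, u ≠ v ∧ F u = F v := by
  by_contra hcon
  push Not at hcon
  have : hasDup (l.map F) [] = false := by
    rw [hasDup_iff]
    refine ⟨hl.map_on ?_, by simp⟩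
    intro u hu v hv huv
    by_contra hne
    exact hcon u hu v hv hne huv
  rw [this] at h
  exact absurd h (by simp)

theorem chk_sound {n : ℕ} {look : List (ℕ × ℕ)} (hl : look.Nodup) :
    ∀ (L : List (ℕ × ℕ)) (k : ℕ) (F : ℕ × ℕ → ℕ),
    chk (L.map (vecL look n)) k (look.map F) = true → ∀ T : List (ℕ × ℕ), T.Sublist L →
      T.length = k → ∃ u ∈ look, ∃ v ∈ look, u ≠ v ∧
        F u + (T.map fun s => c1 n s u).sum = F v + (T.map fun s => c1 n s v).sum := by
  intro L
  induction L with
  | nil =>
    intro k F h T hT hk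
    have : T = [] := List.sublist_nil.1 hT
    subst this
    simp only [List.length_nil] at hk
    subst hk
    simpa using hasDup_map h hl
  | cons a L ih =>
    intro k F h T hT hk
    cases k with
    | zero =>
      have : T = [] := List.length_eq_zero_iff.1 hk
      subst this
      simpa using hasDup_map h hl
    | succ k =>
      have e : chk ((a :: L).map (vecL look n)) (k + 1) (look.map F) =
        Bool.rec (motive := fun _ => Bool) false (chk (L.map (vecL look n)) (k + 1) (look.map F))
          (chk (L.map (vecL look n)) k (addv (vecL look n a) (look.map F))) := rfl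
      rw [e] at h
      cases h1 : chk (L.map (vecL look n)) k (addv (vecL look n a) (look.map F)) with
      | false =>
        rw [h1] at h
        exact absurd h (by simp)
      | true =>
        rw [h1] at h
        rcases List.sublist_cons_iff.1 hT with hT | ⟨T', rfl, hT'⟩
        · exact ih (k + 1) F h T hT hk
        · rw [vecL, addv_map] at h1
          obtain ⟨u, hu, v, hv, hne, he⟩ := ih k _ h1 T' hT' (by simpa using hk)
          refine ⟨u, hu, v, hv, hne, ?_⟩
          simp only [List.map_cons, List.sum_cons]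
          linarith

/-! ### Rotations -/

theorem nd_add {n x a t : ℕ} (hx : x < n) (ha : a < n) (ht : t < n) :
    nd n ((x + t) % n) ((a + t) % n) = nd n x a := by
  have e1 : (x + t) % n = if x + t < n then x + t else x + t - n := by
    split_ifs with h
    · exact Nat.mod_eq_of_lt h
    · rw [Nat.mod_eq_sub_mod (by omega), Nat.mod_eq_of_lt (by omega)]
  have e2 : (a + t) % n = if a + t < n then a + t else a + t - n := by
    split_ifs with h
    · exact Nat.mod_eq_of_lt h
    · rw [Nat.mod_eq_sub_mod (by omega), Nat.mod_eq_of_lt (by omega)]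
  rw [e1, e2]
  unfold nd ad
  split_ifs <;> omega

theorem resolving_map {V : Type*} [DecidableEq V] {G : SimpleGraph V} {S : Finset V} (e : V ≃ V)
    (he : ∀ u v, G.dist (e u) (e v) = G.dist u v) (h : IsMsResolving G S) :
    IsMsResolving G (S.map e.toEmbedding) := by
  intro u v huv
  have key : ∀ u, msRep G (S.map e.toEmbedding) u = msRep G S (e.symm u) := by
    intro u
    unfold msRep
    rw [Finset.map_val, Multiset.map_map]
    refine Multiset.map_congr rfl ?_
    intro s _
    simp only [Function.comp_apply, Equiv.coe_toEmbedding]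
    rw [← he (e.symm u) s, e.apply_symm_apply]
  rw [key, key] at huv
  exact e.symm.injective (h _ _ huv)

/-- the rotation by `t` -/
def rot {n m : ℕ} [NeZero n] (t : Fin n) : Fin n × Fin m ≃ Fin n × Fin m :=
  (Equiv.addRight t).prodCongr (Equiv.refl _)

theorem dist_rot {n m : ℕ} [NeZero n] (hn : 3 ≤ n) (t : Fin n) (u v : Fin n × Fin m) :
    (cyl n m).dist (rot t u) (rot t v) = (cyl n m).dist u v := by
  rw [dist_cyl hn, dist_cyl hn]
  simp only [rot, Equiv.prodCongr_apply, Prod.map, Equiv.coe_addRight, Equiv.refl_apply,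
    Fin.val_add]
  rw [nd_add u.1.2 v.1.2 t.2]


/-- forget the bounds -/
def toNN {n m : ℕ} (u : Fin n × Fin m) : ℕ × ℕ := ((u.1 : ℕ), (u.2 : ℕ))

theorem toNN_inj {n m : ℕ} : Function.Injective (toNN (n := n) (m := m)) := by
  intro u v h
  have h1 := congrArg Prod.fst h
  have h2 := congrArg Prod.snd h
  simp only [toNN] at h1 h2
  ext
  · exact h1
  · exact h2

theorem toNN_mem {n m : ℕ} (u : Fin n × Fin m) : toNN u ∈ verts n m :=
  mem_verts.2 ⟨u.1.2, u.2.2⟩

theorem exists_toNN {n m : ℕ} {v : ℕ × ℕ} (hv : v ∈ verts n m) :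
    ∃ u : Fin n × Fin m, toNN u = v := by
  obtain ⟨h1, h2⟩ := mem_verts.1 hv
  exact ⟨(⟨v.1, h1⟩, ⟨v.2, h2⟩), rfl⟩

theorem code_msRep {n m : ℕ} (hn : 3 ≤ n) (S : Finset (Fin n × Fin m)) (w : Fin n × Fin m) :
    ((msRep (cyl n m) S w).map (16 ^ ·)).sum = ∑ s ∈ S.image toNN, c1 n s (toNN w) := by
  rw [Finset.sum_image (fun a _ b _ h => toNN_inj h)]
  unfold msRep
  rw [Multiset.map_map]
  unfold Finset.sum
  congr 1
  refine Multiset.map_congr rfl ?_
  intro s _
  simp only [Function.comp_apply, c1, toNN]
  rw [dist_cyl hn]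

theorem no_card_aux {n m k r : ℕ} {look : List (ℕ × ℕ)} (hn : 3 ≤ n) (hk : k + 1 < 16)
    (hlook : okLook n m look = true) (h : chkAll n m k look = true)
    (S : Finset (Fin n × Fin m)) (hS : IsMsResolving (cyl n m) S) (hcard : S.card = k + 1)
    (hr : r < m) (hmem : (0, r) ∈ S.image toNN) (hmin : ∀ s ∈ S.image toNN, r ≤ s.2) : False := by
  classical
  set E : Finset (ℕ × ℕ) := (S.image toNN).erase (0, r) with hE
  set T : List (ℕ × ℕ) := (cand n m r).filter (fun v => decide (v ∈ E)) with hT
  have hsub : T.Sublist (cand n m r) := List.filter_sublist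
  have hcand : (cand n m r).Nodup := (nodup_verts n m).filter _
  have hTn : T.Nodup := hcand.filter _
  have hTE : T.toFinset = E := by
    ext v
    simp only [hT, List.mem_toFinset, List.mem_filter, decide_eq_true_eq]
    constructor
    · exact fun hh => hh.2
    · intro hv
      refine ⟨?_, hv⟩
      rw [hE, Finset.mem_erase] at hv
      obtain ⟨s, -, hs⟩ := Finset.mem_image.1 hv.2
      unfold cand
      rw [List.mem_filter]
      refine ⟨hs ▸ toNN_mem s, ?_⟩
      simp only [Bool.and_eq_true, decide_eq_true_eq, Bool.not_eq_true', beq_eq_false_iff_ne]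
      exact ⟨hmin v hv.2, hv.1⟩
  have hTl : T.length = k := by
    rw [← List.toFinset_card_of_nodup hTn, hTE, hE, Finset.card_erase_of_mem hmem,
      Finset.card_image_of_injective _ toNN_inj, hcard]
    rfl
  have hc : chk ((cand n m r).map (vecL look n)) k (vecL look n (0, r)) = true := by
    unfold chkAll at h
    rw [List.all_eq_true] at h
    exact h r (List.mem_range.2 hr)
  simp only [okLook, Bool.and_eq_true, decide_eq_true_eq, List.all_eq_true] at hlook
  rw [show vecL look n (0, r) = look.map (c1 n (0, r)) from rfl] at hc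
  obtain ⟨u, hu, v, hv, hne, he⟩ := chk_sound hlook.1 _ _ _ hc T hsub hTl
  obtain ⟨u', rfl⟩ := exists_toNN (mem_verts.2 (hlook.2 u hu))
  obtain ⟨v', rfl⟩ := exists_toNN (mem_verts.2 (hlook.2 v hv))
  have key : ∀ w : Fin n × Fin m, ((msRep (cyl n m) S w).map (16 ^ ·)).sum =
      c1 n (0, r) (toNN w) + (T.map fun s => c1 n s (toNN w)).sum := by
    intro w
    rw [code_msRep hn, ← List.sum_toFinset _ hTn, hTE, hE]
    exact (Finset.add_sum_erase _ _ hmem).symm
  have hcd : ∀ w, Multiset.card (msRep (cyl n m) S w) < 16 := by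
    intro w
    unfold msRep
    rw [Multiset.card_map]
    change S.card < 16
    omega
  have := hS u' v' (code_inj (hcd _) (hcd _) (by rw [key, key]; exact he))
  exact hne (by rw [this])

theorem no_card {n m k : ℕ} {look : List (ℕ × ℕ)} (hn : 3 ≤ n) (hk : k + 1 < 16)
    (hlook : okLook n m look = true) (h : chkAll n m k look = true)
    (S : Finset (Fin n × Fin m)) (hS : IsMsResolving (cyl n m) S) : S.card ≠ k + 1 := by
  intro hcard
  have : NeZero n := ⟨by omega⟩
  have hne : S.Nonempty := Finset.card_pos.1 (by omega)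
  obtain ⟨s0, hs0, hmin⟩ := Finset.exists_min_image S (fun s => s.2) hne
  refine no_card_aux (r := (s0.2 : ℕ)) hn hk hlook h (S.map (rot (-s0.1)).toEmbedding)
    (resolving_map _ (dist_rot hn _) hS) (by rw [Finset.card_map, hcard]) s0.2.2 ?_ ?_
  · rw [Finset.mem_image]
    refine ⟨rot (-s0.1) s0, ?_, ?_⟩
    · exact Finset.mem_map_of_mem _ hs0
    · simp [rot, toNN]
  · intro s hs
    rw [Finset.mem_image] at hs
    obtain ⟨a, ha, rfl⟩ := hs
    rw [Finset.mem_map] at ha
    obtain ⟨b, hb, rfl⟩ := ha
    have := hmin b hb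
    simp only [rot, toNN, Equiv.coe_toEmbedding, Equiv.prodCongr_apply, Prod.map,
      Equiv.refl_apply]
    exact this

/-! ### Explicit resolving sets -/

/-- the codes for a list of vertices -/
def codes (n m : ℕ) (L : List (ℕ × ℕ)) : List ℕ :=
  (verts n m).map fun v => (L.map fun s => c1 n s v).sum

/-- entry check: vertices in range, distinct, and codes distinct -/
noncomputable def okEntry (e : ℕ × ℕ × List (ℕ × ℕ)) : Bool :=
  decide (3 ≤ e.1) && e.2.2.all (fun s => decide (s.1 < e.1) && decide (s.2 < e.2.1)) &&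
    decide e.2.2.Nodup && !(hasDup (codes e.1 e.2.1 e.2.2) [])

theorem ex_of_entry {n m : ℕ} {L : List (ℕ × ℕ)} (h : okEntry (n, m, L) = true) :
    ∃ S : Finset (Fin n × Fin m), IsMsResolving (cyl n m) S ∧ S.card = L.length := by
  simp only [okEntry, Bool.and_eq_true, decide_eq_true_eq, List.all_eq_true, Bool.not_eq_true']
    at h
  obtain ⟨⟨⟨hn, hL⟩, hnd⟩, hdup⟩ := h
  let S : Finset (Fin n × Fin m) := Finset.univ.filter (fun u => toNN u ∈ L)
  have himg : S.image toNN = L.toFinset := by
    ext v
    simp only [S, Finset.mem_image, Finset.mem_filter, Finset.mem_univ, true_and,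
      List.mem_toFinset]
    constructor
    · rintro ⟨a, ha, rfl⟩; exact ha
    · intro hv
      obtain ⟨u, rfl⟩ := exists_toNN (n := n) (m := m) (mem_verts.2 (hL v hv))
      exact ⟨u, hv, rfl⟩
  refine ⟨S, ?_, ?_⟩
  · intro u v huv
    have e : ((msRep (cyl n m) S u).map (16 ^ ·)).sum = ((msRep (cyl n m) S v).map (16 ^ ·)).sum := by
      rw [huv]
    rw [code_msRep hn, code_msRep hn, himg, List.sum_toFinset _ hnd,
      List.sum_toFinset _ hnd] at e
    have hnd2 : (codes n m L).Nodup := ((hasDup_iff _ _).1 hdup).1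
    unfold codes at hnd2
    exact toNN_inj (List.inj_on_of_nodup_map hnd2 (toNN_mem u) (toNN_mem v) e)
  · rw [← Finset.card_image_of_injective S toNN_inj, himg, List.toFinset_card_of_nodup hnd]

end Pool.Agent.J6H77.Mdim
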