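import Pool.Agent.J6H77.Mdim.Bridge

namespace Pool.Agent.J6H77.Mdim

open SimpleGraph

theorem perm4 {a b c d a' b' c' d' : ℕ} (h : [a, b, c, d].Perm [a', b', c', d']) :
    (a = a' ∧ b = b' ∧ c = c' ∧ d = d') ∨ (a = b' ∧ b = a' ∧ c = c' ∧ d = d') ∨
    (a = b' ∧ b = c' ∧ c = a' ∧ d = d') ∨ (a = b' ∧ b = c' ∧ c = d' ∧ d = a') ∨
    (a = a' ∧ b = c' ∧ c = b' ∧ d = d') ∨ (a = c' ∧ b = a' ∧ c = b' ∧ d = d') ∨
    (a = c' ∧ b = b' ∧ c = a' ∧ d = d') ∨ (a = c' ∧ b = b' ∧ c = d' ∧ d = a') ∨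
    (a = a' ∧ b = c' ∧ c = d' ∧ d = b') ∨ (a = c' ∧ b = a' ∧ c = d' ∧ d = b') ∨
    (a = c' ∧ b = d' ∧ c = a' ∧ d = b') ∨ (a = c' ∧ b = d' ∧ c = b' ∧ d = a') ∨
    (a = a' ∧ b = b' ∧ c = d' ∧ d = c') ∨ (a = b' ∧ b = a' ∧ c = d' ∧ d = c') ∨
    (a = b' ∧ b = d' ∧ c = a' ∧ d = c') ∨ (a = b' ∧ b = d' ∧ c = c' ∧ d = a') ∨
    (a = a' ∧ b = d' ∧ c = b' ∧ d = c') ∨ (a = d' ∧ b = a' ∧ c = b' ∧ d = c') ∨
    (a = d' ∧ b = b' ∧ c = a' ∧ d = c') ∨ (a = d' ∧ b = b' ∧ c = c' ∧ d = a') ∨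
    (a = a' ∧ b = d' ∧ c = c' ∧ d = b') ∨ (a = d' ∧ b = a' ∧ c = c' ∧ d = b') ∨
    (a = d' ∧ b = c' ∧ c = a' ∧ d = b') ∨ (a = d' ∧ b = c' ∧ c = b' ∧ d = a') := by
  rw [← List.mem_permutations'] at h
  simp only [List.permutations', List.permutations'Aux, List.flatMap_cons, List.flatMap_nil,
    List.map_cons, List.map_nil, List.append_nil, List.cons_append, List.nil_append,
    List.mem_cons, List.not_mem_nil, or_false, List.cons.injEq, and_true] at h
  rcases h with h | h | h | h | h | h | h | h | h | h | h | h | h | h | h | h | h | h | h | h |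
    h | h | h | h <;> simp only [h, and_self, true_or, or_true]

section four
variable {V : Type*} [DecidableEq V] {G : SimpleGraph V}

theorem msRep_four {a b c d : V} (hab : a ≠ b) (hac : a ≠ c) (had : a ≠ d) (hbc : b ≠ c)
    (hbd : b ≠ d) (hcd : c ≠ d) (u : V) :
    msRep G {a, b, c, d} u = {G.dist u a, G.dist u b, G.dist u c, G.dist u d} := by
  unfold msRep
  rw [Finset.insert_val_of_notMem (by simp [hab, hac, had]),
    Finset.insert_val_of_notMem (by simp [hbc, hbd]),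
    Finset.insert_val_of_notMem (by simp [hcd])]
  simp

end four

theorem nd_one {n x : ℕ} (hn : 4 ≤ n) (hx : x < n) :
    (nd n x 1 + 1 = nd n x 0 ∧ x = nd n x 0) ∨
    (nd n x 1 = nd n x 0 + 1 ∧ (x = 0 ∧ nd n x 0 = 0 ∨ 1 ≤ nd n x 0 ∧ x = n - nd n x 0)) ∨
    (nd n x 1 = nd n x 0 ∧ 2 * nd n x 0 + 1 = n ∧ x = nd n x 0 + 1) := by
  unfold nd ad
  omega

theorem nd_le {n x : ℕ} (hx : x < n) : 2 * nd n x 0 ≤ n := by
  unfold nd ad
  omega

/-- The arithmetic core for the family `(0,0), (0,2), (0,M), (1,M)`. -/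
theorem four_core {n M p q y p' q' y' : ℕ} (hM : 5 ≤ M) (hy : y ≤ M) (hy' : y' ≤ M)
    (hp : 2 * p ≤ n) (hp' : 2 * p' ≤ n)
    (hq : q + 1 = p ∨ q = p + 1 ∨ (q = p ∧ 2 * p + 1 = n))
    (hq' : q' + 1 = p' ∨ q' = p' + 1 ∨ (q' = p' ∧ 2 * p' + 1 = n))
    (h : [p + ad y 0, p + ad y 2, p + ad y M, q + ad y M].Perm
      [p' + ad y' 0, p' + ad y' 2, p' + ad y' M, q' + ad y' M]) :
    p = p' ∧ q = q' ∧ y = y' := by
  have h := perm4 h
  have e1 : ad y 0 = y := by unfold ad; omega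
  have e2 : ad y M = M - y := by unfold ad; omega
  have e3 : ad y' 0 = y' := by unfold ad; omega
  have e4 : ad y' M = M - y' := by unfold ad; omega
  rw [e1, e2, e3, e4] at h
  clear e1 e2 e3 e4
  have f1 : (y ≤ 2 ∧ ad y 2 = 2 - y) ∨ (3 ≤ y ∧ ad y 2 = y - 2) := by unfold ad; omega
  have f2 : (y' ≤ 2 ∧ ad y' 2 = 2 - y') ∨ (3 ≤ y' ∧ ad y' 2 = y' - 2) := by unfold ad; omega
  generalize ad y 2 = z at *
  generalize ad y' 2 = z' at *
  rcases h with h | h | h | h | h | h | h | h | h | h | h | h | h | h | h | h | h | h | h | h |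
    h | h | h | h <;>
  rcases hq with hq | hq | hq <;> rcases hq' with hq' | hq' | hq' <;> omega

/-- Four vertices suffice when there are at least six rows. -/
theorem ex_four {n m : ℕ} (hn : 4 ≤ n) (hm : 6 ≤ m) :
    ∃ S : Finset (Fin n × Fin m), IsMsResolving (cyl n m) S ∧ S.card = 4 := by
  let a : Fin n × Fin m := (⟨0, by omega⟩, ⟨0, by omega⟩)
  let b : Fin n × Fin m := (⟨0, by omega⟩, ⟨2, by omega⟩)
  let c : Fin n × Fin m := (⟨0, by omega⟩, ⟨m - 1, by omega⟩)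
  let d : Fin n × Fin m := (⟨1, by omega⟩, ⟨m - 1, by omega⟩)
  have hab : a ≠ b := by
    intro h
    have e := congrArg (fun u : Fin n × Fin m => (u.2 : ℕ)) h
    simp only [a, b] at e
    omega
  have hac : a ≠ c := by
    intro h
    have e := congrArg (fun u : Fin n × Fin m => (u.2 : ℕ)) h
    simp only [a, c] at e
    omega
  have had : a ≠ d := by
    intro h
    have e := congrArg (fun u : Fin n × Fin m => (u.2 : ℕ)) h
    simp only [a, d] at e
    omega
  have hbc : b ≠ c := by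
    intro h
    have e := congrArg (fun u : Fin n × Fin m => (u.2 : ℕ)) h
    simp only [b, c] at e
    omega
  have hbd : b ≠ d := by
    intro h
    have e := congrArg (fun u : Fin n × Fin m => (u.2 : ℕ)) h
    simp only [b, d] at e
    omega
  have hcd : c ≠ d := by
    intro h
    have e := congrArg (fun u : Fin n × Fin m => (u.1 : ℕ)) h
    simp only [c, d] at e
    omega
  refine ⟨{a, b, c, d}, ?_, ?_⟩
  · intro u v huv
    rw [msRep_four hab hac had hbc hbd hcd, msRep_four hab hac had hbc hbd hcd] at huv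
    have hp := Multiset.coe_eq_coe.1 huv
    simp only [dist_cyl (show 3 ≤ n by omega)] at hp
    have e := four_core (n := n) (M := m - 1) (p := nd n u.1 0) (q := nd n u.1 1) (y := u.2)
      (p' := nd n v.1 0) (q' := nd n v.1 1) (y' := v.2) (by omega)
      (by have := u.2.2; omega) (by have := v.2.2; omega) (nd_le u.1.2) (nd_le v.1.2)
      (by have := nd_one hn u.1.2; tauto) (by have := nd_one hn v.1.2; tauto) hp
    obtain ⟨e1, e2, e3⟩ := e
    have g1 := nd_one hn u.1.2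
    have g2 := nd_one hn v.1.2
    rw [e1, e2] at g1
    ext
    · generalize nd n (v.1 : ℕ) 0 = P at *
      generalize nd n (v.1 : ℕ) 1 = Q at *
      omega
    · exact e3
  · rw [Finset.card_insert_of_notMem (by simp [hab, hac, had]),
      Finset.card_insert_of_notMem (by simp [hbc, hbd]),
      Finset.card_insert_of_notMem (by simp [hcd]), Finset.card_singleton]

end Pool.Agent.J6H77.Mdim
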