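import Mathlib

namespace Pool.Agent.J6H77.Mdim

open SimpleGraph

section defs
variable {V : Type*}

/-- The multiset representation `m_G(v | S)`. -/
noncomputable def msRep (G : SimpleGraph V) (S : Finset V) (v : V) : Multiset ℕ :=
  S.val.map fun s => G.dist v s

/-- `S` is a multiset resolving set of `G`. -/
def IsMsResolving (G : SimpleGraph V) (S : Finset V) : Prop :=
  ∀ u v : V, msRep G S u = msRep G S v → u = v

/-- The multiset dimension; it is `⊤` when there is no multiset resolving set. -/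
noncomputable def mdim (G : SimpleGraph V) : ℕ∞ :=
  ⨅ (S : Finset V) (_ : IsMsResolving G S), (S.card : ℕ∞)

/-- The cylinder graph `C_n □ P_m`. -/
def cyl (n m : ℕ) : SimpleGraph (Fin n × Fin m) := cycleGraph n □ pathGraph m

end defs

theorem dist_eq_of_potential {V : Type*} (G : SimpleGraph V) (s : V) (f : V → ℕ) (h0 : f s = 0)
    (hadj : ∀ x y, G.Adj x y → f x ≤ f y + 1)
    (hdec : ∀ x, x ≠ s → ∃ y, G.Adj x y ∧ f y + 1 = f x) (x : V) : G.dist x s = f x := by
  have lower : ∀ {a b : V} (p : G.Walk a b), f a ≤ f b + p.length := by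
    intro a b p
    induction p with
    | nil => simp
    | @cons u v w h p ih =>
      have := hadj _ _ h
      simp only [Walk.length_cons]
      omega
  have upper : ∀ k : ℕ, ∀ x, f x = k → ∃ p : G.Walk x s, p.length = k := by
    intro k
    induction k with
    | zero =>
      intro x hx
      by_cases hxs : x = s
      · subst hxs; exact ⟨Walk.nil, rfl⟩
      · obtain ⟨y, -, hy⟩ := hdec x hxs
        omega
    | succ k ih =>
      intro x hx
      have hxs : x ≠ s := by rintro rfl; omega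
      obtain ⟨y, hy1, hy2⟩ := hdec x hxs
      obtain ⟨p, hp⟩ := ih y (by omega)
      exact ⟨Walk.cons hy1 p, by simp [hp]⟩
  obtain ⟨p, hp⟩ := upper _ x rfl
  apply le_antisymm
  · rw [← hp]; exact dist_le p
  · obtain ⟨q, hq⟩ := (p.reachable).exists_walk_length_eq_dist
    have := lower q
    rw [h0, hq] at this
    omega

/-- absolute difference on `ℕ` -/
def ad (a b : ℕ) : ℕ := (a - b) + (b - a)

/-- cyclic distance on `{0, …, n-1}` -/
def nd (n a b : ℕ) : ℕ := min (ad a b) (n - ad a b)

theorem dist_cyl {n m : ℕ} (hn : 3 ≤ n) (u v : Fin n × Fin m) :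
    (cyl n m).dist u v = nd n u.1 v.1 + ad u.2 v.2 := by
  obtain ⟨s1, s2⟩ := v
  obtain ⟨n, rfl⟩ : ∃ n', n = n' + 2 := ⟨n - 2, by omega⟩
  refine dist_eq_of_potential (cyl (n + 2) m) (s1, s2)
    (fun u => nd (n + 2) u.1 s1 + ad u.2 s2) ?_ ?_ ?_ u
  · simp [nd, ad]
  · rintro ⟨x1, x2⟩ ⟨y1, y2⟩ h
    simp only [cyl, boxProd_adj, cycleGraph_adj', pathGraph_adj] at h
    have h1 := x1.2; have h2 := x2.2; have h3 := y1.2; have h4 := y2.2
    have h5 := s1.2; have h6 := s2.2
    simp only [nd, ad]
    rcases h with ⟨h, he⟩ | ⟨h, he⟩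
    · subst he
      simp only [Fin.sub_def] at h
      rcases h with h | h
      · -- x1 - y1 ≡ 1
        have : (x1 : ℕ) = y1 + 1 ∨ ((x1 : ℕ) = 0 ∧ (y1 : ℕ) = n + 1) := by
          rcases Nat.lt_or_ge (n + 2 - (y1 : ℕ) + x1) (n + 2) with hl | hl
          · rw [Nat.mod_eq_of_lt hl] at h; omega
          · rw [Nat.mod_eq_sub_mod hl, Nat.mod_eq_of_lt (by omega)] at h; omega
        rcases this with h | ⟨h, h'⟩ <;> omega
      · have : (y1 : ℕ) = x1 + 1 ∨ ((y1 : ℕ) = 0 ∧ (x1 : ℕ) = n + 1) := by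
          rcases Nat.lt_or_ge (n + 2 - (x1 : ℕ) + y1) (n + 2) with hl | hl
          · rw [Nat.mod_eq_of_lt hl] at h; omega
          · rw [Nat.mod_eq_sub_mod hl, Nat.mod_eq_of_lt (by omega)] at h; omega
        rcases this with h | ⟨h, h'⟩ <;> omega
    · subst he
      rcases h with h | h <;> omega
  · rintro ⟨x1, x2⟩ hne
    have h1 := x1.2; have h2 := x2.2
    have h5 := s1.2; have h6 := s2.2
    by_cases hx2 : (x2 : ℕ) = s2
    · have hx1 : (x1 : ℕ) ≠ s1 := by
        intro h
        apply hne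
        ext
        · exact h
        · exact hx2
      -- move on the cycle: right or left
      have hR : ∃ y1 : Fin (n + 2),
          (y1 : ℕ) = (if (x1 : ℕ) = n + 1 then (0 : ℕ) else (x1 : ℕ) + 1) := by
        refine ⟨⟨if (x1 : ℕ) = n + 1 then (0 : ℕ) else (x1 : ℕ) + 1, ?_⟩, rfl⟩
        split_ifs <;> omega
      have hL : ∃ y1 : Fin (n + 2),
          (y1 : ℕ) = (if (x1 : ℕ) = 0 then (n + 1 : ℕ) else (x1 : ℕ) - 1) := by
        refine ⟨⟨if (x1 : ℕ) = 0 then (n + 1 : ℕ) else (x1 : ℕ) - 1, ?_⟩, rfl⟩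
        split_ifs <;> omega
      obtain ⟨yR, hyR⟩ := hR
      obtain ⟨yL, hyL⟩ := hL
      have adjR : (cyl (n + 2) m).Adj (x1, x2) (yR, x2) := by
        simp only [cyl, boxProd_adj, cycleGraph_adj']
        left
        refine ⟨Or.inr ?_, trivial⟩
        simp only [Fin.sub_def]
        rw [hyR]
        split_ifs with h
        · rw [Nat.mod_eq_of_lt (by omega)]; omega
        · rw [Nat.mod_eq_sub_mod (by omega), Nat.mod_eq_of_lt (by omega)]; omega
      have adjL : (cyl (n + 2) m).Adj (x1, x2) (yL, x2) := by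
        simp only [cyl, boxProd_adj, cycleGraph_adj']
        left
        refine ⟨Or.inl ?_, trivial⟩
        simp only [Fin.sub_def]
        rw [hyL]
        split_ifs with h
        · rw [Nat.mod_eq_of_lt (by omega)]; omega
        · rw [Nat.mod_eq_sub_mod (by omega), Nat.mod_eq_of_lt (by omega)]; omega
      simp only [nd, ad]
      by_cases hlt : (x1 : ℕ) < s1
      · by_cases hs : 2 * ((s1 : ℕ) - x1) ≤ n + 2
        · refine ⟨(yR, x2), adjR, ?_⟩
          simp only [hyR]
          split_ifs <;> omega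
        · refine ⟨(yL, x2), adjL, ?_⟩
          simp only [hyL]
          split_ifs <;> omega
      · by_cases hs : 2 * ((x1 : ℕ) - s1) ≤ n + 2
        · refine ⟨(yL, x2), adjL, ?_⟩
          simp only [hyL]
          split_ifs <;> omega
        · refine ⟨(yR, x2), adjR, ?_⟩
          simp only [hyR]
          split_ifs <;> omega
    · by_cases hlt : (x2 : ℕ) < s2
      · refine ⟨(x1, ⟨x2 + 1, by omega⟩), ?_, ?_⟩
        · simp [cyl, boxProd_adj, pathGraph_adj]
        · simp only [nd, ad]; omega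
      · refine ⟨(x1, ⟨x2 - 1, by omega⟩), ?_, ?_⟩
        · simp only [cyl, boxProd_adj, pathGraph_adj]
          right
          refine ⟨Or.inr ?_, trivial⟩
          omega
        · simp only [nd, ad]; omega

end Pool.Agent.J6H77.Mdim
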