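import Pool.Agent.J6H77.Mdim.Finite

namespace Pool.Agent.J6H77.Mdim

theorem neg_6_4 : chkAll 6 4 3 (lookOf 6 (midRows 4)) = true := by decide +kernel

theorem neg_7_3 : chkAll 7 3 3 (lookOf 7 (midRows 3)) = true := by decide +kernel

theorem neg_5_4 : chkAll 5 4 3 (lookOf 5 (midRows 4)) = true := by decide +kernel

end Pool.Agent.J6H77.Mdim
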