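import Pool.Agent.J6H77.Mdim.Finite

namespace Pool.Agent.J6H77.Mdim

theorem neg_6_3 : chkAll 6 3 3 (lookOf 6 (midRows 3)) = true := by decide +kernel

theorem neg_4_4 : chkAll 4 4 3 (lookOf 4 (midRows 4)) = true := by decide +kernel

theorem neg_5_3 : chkAll 5 3 3 (lookOf 5 (midRows 3)) = true := by decide +kernel

theorem neg_7_2 : chkAll 7 2 3 (lookOf 7 (midRows 2)) = true := by decide +kernel

theorem neg_6_2 : chkAll 6 2 3 (lookOf 6 (midRows 2)) = true := by decide +kernel

theorem neg_4_3 : chkAll 4 3 3 (lookOf 4 (midRows 3)) = true := by decide +kernel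

/-- the lists of vertices are correct -/
theorem okLook_all : ((List.range 8).all fun n => (List.range 6).all fun m =>
    decide (m = 0) || okLook n m (lookOf n (midRows m))) = true := by decide +kernel

/-- no resolving set of size `1, …, nm` at all -/
theorem negAll : ([(4, 1), (5, 1), (4, 2), (5, 2)].all fun e =>
    (List.range (e.1 * e.2)).all fun k => chkAll e.1 e.2 k (lookOf e.1 (midRows e.2))) = true := by
  decide +kernel

end Pool.Agent.J6H77.Mdim
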