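import Pool.Agent.J6H77.Mdim.Finite

namespace Pool.Agent.J6H77.Mdim

/-- resolving sets of size four, for few rows -/
def tab4 : List (ℕ × ℕ × List (ℕ × ℕ)) :=
  [(8, 2, [(0, 0), (1, 0), (2, 1), (6, 1)]),
   (9, 2, [(0, 0), (1, 0), (2, 0), (4, 0)]),
   (10, 2, [(0, 0), (0, 1), (2, 0), (4, 0)]),
   (13, 2, [(0, 0), (0, 1), (4, 0), (7, 0)]),
   (8, 3, [(0, 0), (1, 0), (3, 0), (5, 0)]),
   (9, 3, [(0, 0), (1, 1), (2, 1), (5, 0)]),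
   (10, 3, [(0, 0), (1, 0), (3, 0), (5, 0)]),
   (11, 3, [(0, 0), (1, 1), (2, 1), (5, 0)]),
   (12, 3, [(0, 0), (1, 0), (3, 0), (7, 0)]),
   (13, 3, [(0, 0), (1, 0), (3, 0), (8, 0)]),
   (14, 3, [(0, 0), (0, 2), (5, 0), (8, 0)]),
   (15, 3, [(0, 0), (0, 2), (4, 0), (7, 0)]),
   (16, 3, [(0, 0), (0, 1), (1, 2), (11, 2)]),
   (17, 3, [(0, 0), (0, 2), (5, 0), (8, 0)]),
   (20, 3, [(0, 0), (0, 1), (1, 2), (13, 2)]),
   (7, 4, [(0, 0), (1, 1), (3, 2), (6, 3)]),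
   (8, 4, [(0, 0), (1, 0), (3, 0), (5, 0)]),
   (9, 4, [(0, 0), (1, 1), (2, 1), (5, 0)]),
   (10, 4, [(0, 0), (0, 3), (2, 0), (4, 0)]),
   (11, 4, [(0, 0), (1, 1), (2, 1), (5, 0)]),
   (12, 4, [(0, 0), (0, 3), (1, 1), (8, 0)]),
   (13, 4, [(0, 0), (1, 0), (3, 0), (8, 0)]),
   (14, 4, [(0, 0), (0, 2), (2, 3), (6, 0)]),
   (15, 4, [(0, 0), (0, 2), (5, 0), (9, 0)]),
   (16, 4, [(0, 0), (0, 2), (2, 3), (6, 0)]),
   (17, 4, [(0, 0), (0, 2), (5, 0), (9, 0)]),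
   (18, 4, [(0, 0), (0, 1), (0, 3), (6, 3)]),
   (19, 4, [(0, 0), (0, 2), (5, 0), (9, 0)]),
   (20, 4, [(0, 0), (0, 1), (0, 3), (6, 3)]),
   (21, 4, [(0, 0), (0, 2), (6, 0), (10, 0)]),
   (22, 4, [(0, 0), (0, 1), (0, 3), (6, 3)]),
   (25, 4, [(0, 0), (0, 2), (7, 0), (12, 0)]),
   (4, 5, [(0, 0), (0, 4), (1, 1), (2, 1)]),
   (5, 5, [(0, 0), (0, 4), (1, 1), (2, 1)]),
   (8, 5, [(0, 0), (0, 4), (1, 1), (4, 1)]),
   (9, 5, [(0, 0), (1, 1), (2, 1), (5, 0)]),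
   (10, 5, [(0, 0), (1, 0), (3, 0), (5, 0)]),
   (11, 5, [(0, 0), (1, 1), (2, 1), (5, 0)]),
   (12, 5, [(0, 0), (0, 4), (1, 1), (6, 1)]),
   (13, 5, [(0, 0), (1, 0), (3, 0), (8, 0)]),
   (14, 5, [(0, 0), (0, 2), (5, 0), (8, 0)]),
   (15, 5, [(0, 0), (0, 2), (5, 0), (9, 0)]),
   (16, 5, [(0, 0), (0, 2), (1, 4), (6, 0)]),
   (17, 5, [(0, 0), (0, 2), (5, 0), (9, 0)]),
   (18, 5, [(0, 0), (0, 2), (1, 4), (6, 0)]),
   (19, 5, [(0, 0), (0, 2), (5, 0), (9, 0)]),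
   (20, 5, [(0, 0), (0, 1), (0, 4), (6, 1)]),
   (21, 5, [(0, 0), (0, 2), (6, 0), (10, 0)]),
   (22, 5, [(0, 0), (0, 1), (0, 4), (6, 1)]),
   (23, 5, [(0, 0), (0, 2), (7, 0), (11, 0)]),
   (24, 5, [(0, 0), (0, 1), (0, 4), (6, 1)]),
   (25, 5, [(0, 0), (0, 2), (7, 0), (13, 0)]),
   (26, 5, [(0, 0), (0, 1), (0, 4), (6, 1)]),
   (27, 5, [(0, 0), (0, 2), (7, 0), (13, 0)]),
   (28, 5, [(0, 0), (0, 1), (0, 4), (6, 1)]),
   (29, 5, [(0, 0), (0, 2), (8, 0), (14, 0)]),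
   (32, 5, [(0, 0), (0, 1), (0, 4), (6, 1)])]

/-- resolving sets of size five for the eleven exceptional pairs -/
def tab5 : List (ℕ × ℕ × List (ℕ × ℕ)) :=
  [(4, 3, [(0, 0), (0, 1), (1, 0), (1, 2), (2, 0)]),
   (4, 4, [(0, 0), (0, 1), (0, 2), (1, 0), (1, 3)]),
   (5, 3, [(0, 0), (0, 1), (1, 0), (1, 2), (2, 0)]),
   (5, 4, [(0, 0), (0, 1), (0, 2), (1, 3), (2, 1)]),
   (6, 2, [(0, 0), (0, 1), (1, 0), (2, 0), (3, 1)]),
   (6, 3, [(0, 0), (0, 1), (0, 2), (1, 0), (2, 1)]),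
   (6, 4, [(0, 0), (0, 1), (0, 2), (1, 0), (1, 3)]),
   (6, 5, [(0, 0), (0, 1), (0, 2), (0, 4), (1, 0)]),
   (7, 2, [(0, 0), (0, 1), (1, 0), (2, 0), (3, 1)]),
   (7, 3, [(0, 0), (0, 1), (1, 0), (2, 0), (2, 2)]),
   (7, 5, [(0, 0), (0, 1), (0, 2), (0, 4), (1, 0)])]

theorem tab4_ok : tab4.all okEntry = true := by decide +kernel

theorem tab5_ok : tab5.all okEntry = true := by decide +kernel

theorem tab4_len : tab4.all (fun e => e.2.2.length == 4) = true := by decide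

theorem tab5_len : tab5.all (fun e => e.2.2.length == 5) = true := by decide

/-- the eleven exceptional pairs -/
def exc : List (ℕ × ℕ) :=
  [(4, 3), (4, 4), (5, 3), (5, 4), (6, 2), (6, 3), (6, 4), (6, 5), (7, 2), (7, 3), (7, 5)]

theorem tab5_cover : ∀ e ∈ exc, ∃ t ∈ tab5, t.1 = e.1 ∧ t.2.1 = e.2 := by decide

/-- Boolean form of the coverage statement -/
def coverOk (n m : ℕ) : Bool :=
  decide (n < 4) || decide (m < 2) || decide ((n, m) ∈ exc) || (decide (n ≤ 5) && decide (m ≤ 2)) ||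
  (decide (m % 2 = 0) && decide (6 * m ≤ n + 1) && decide (n ≠ 6 * m + 1)) ||
  (decide (m % 2 = 1) && decide (6 * m ≤ n) && decide (n ≠ 6 * m + 2)) ||
  tab4.any fun t => decide (t.1 = n) && decide (t.2.1 = m)

theorem coverOk_all : ((List.range 33).all fun n => (List.range 6).all fun m => coverOk n m) = true := by
  decide +kernel

theorem tab4_cover {n m : ℕ} (hn : n < 33) (hm : m < 6) (h4 : 4 ≤ n) (h2 : 2 ≤ m)
    (he : (n, m) ∉ exc) (hT : ¬ (n ≤ 5 ∧ m ≤ 2))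
    (hE : ¬ (m % 2 = 0 ∧ 6 * m ≤ n + 1 ∧ n ≠ 6 * m + 1))
    (hO : ¬ (m % 2 = 1 ∧ 6 * m ≤ n ∧ n ≠ 6 * m + 2)) : ∃ t ∈ tab4, t.1 = n ∧ t.2.1 = m := by
  have h := coverOk_all
  rw [List.all_eq_true] at h
  have h' := h n (List.mem_range.2 hn)
  rw [List.all_eq_true] at h'
  have h'' := h' m (List.mem_range.2 hm)
  simp only [coverOk, Bool.or_eq_true, Bool.and_eq_true, decide_eq_true_eq, List.any_eq_true] at h''
  rcases h'' with (((((h1 | h1) | h1) | h1) | h1) | h1) | h1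
  · omega
  · omega
  · exact absurd h1 he
  · exact absurd h1 hT
  · exact absurd ⟨h1.1.1, h1.1.2, h1.2⟩ hE
  · exact absurd ⟨h1.1.1, h1.1.2, h1.2⟩ hO
  · exact h1

end Pool.Agent.J6H77.Mdim
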