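import Pool.Agent.J6H77.Mdim.Four
import Pool.Agent.J6H77.Mdim.Table
import Pool.Agent.J6H77.Mdim.NegA
import Pool.Agent.J6H77.Mdim.NegB
import Pool.Agent.J6H77.Mdim.NegC
import Pool.Agent.J6H77.Mdim.NegD

namespace Pool.Agent.J6H77.Mdim

open SimpleGraph

/-! ### One row -/

theorem res_row {n : ℤ} (hn : 6 ≤ n) : Res n 0 0 0 1 0 3 0 := by
  refine Res.of_reduced (by omega) (by omega) (by omega) (by omega) ?_
  intro x y x' y' hx0 hx1 hx0' hx1' hy0 hy1 hy0' hy1' hc
  have ey : y = 0 := by omega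
  have ey' : y' = 0 := by omega
  subst ey ey'
  have key : ∀ x : ℤ, 0 ≤ x → x < n → ∃ u v w : ℤ, ds n x 0 0 0 = u ∧ ds n x 0 1 0 = v ∧
      ds n x 0 3 0 = w ∧ ((x = 0 ∧ u = 0 ∧ v = 1 ∧ w = 3) ∨
      (1 ≤ x ∧ x ≤ 3 ∧ 2 * x ≤ n ∧ u = x ∧ v = x - 1 ∧ w = 3 - x) ∨
      (3 ≤ x ∧ 2 * x ≤ n ∧ u = x ∧ v = x - 1 ∧ w = x - 3) ∨
      (n < 2 * x ∧ 2 * x ≤ n + 2 ∧ u = n - x ∧ v = x - 1 ∧ w = x - 3) ∨
      (n + 2 < 2 * x ∧ 2 * x ≤ n + 6 ∧ u = n - x ∧ v = n - x + 1 ∧ w = x - 3) ∨
      (n + 6 < 2 * x ∧ u = n - x ∧ v = n - x + 1 ∧ w = n - x + 3)) := by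
    intro x h0 h1
    refine ⟨_, _, _, rfl, rfl, rfl, ?_⟩
    simp only [ds]
    rcases eq_or_lt_of_le h0 with a0 | a0
    · exact Or.inl ⟨a0.symm, by omega, by omega, by omega⟩
    rcases le_or_gt (2 * x) n with a1 | a1
    · rcases le_total x 3 with a2 | a2
      · exact Or.inr (Or.inl ⟨by omega, a2, a1, by omega, by omega, by omega⟩)
      · exact Or.inr (Or.inr (Or.inl ⟨a2, a1, by omega, by omega, by omega⟩))
    rcases le_or_gt (2 * x) (n + 2) with a2 | a2
    · exact Or.inr (Or.inr (Or.inr (Or.inl ⟨a1, a2, by omega, by omega, by omega⟩)))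
    rcases le_or_gt (2 * x) (n + 6) with a3 | a3
    · exact Or.inr (Or.inr (Or.inr (Or.inr (Or.inl ⟨a2, a3, by omega, by omega, by omega⟩))))
    · exact Or.inr (Or.inr (Or.inr (Or.inr (Or.inr ⟨a3, by omega, by omega, by omega⟩))))
  obtain ⟨u₁, u₂, u₃, e1, e2, e3, hu⟩ := key x hx0 hx1
  obtain ⟨v₁, v₂, v₃, f1, f2, f3, hv⟩ := key x' hx0' hx1'
  rw [e1, e2, e3, f1, f2, f3] at hc
  clear e1 e2 e3 f1 f2 f3 key
  rcases hc with hc | hc | hc | hc | hc | hc <;>
  rcases hu with hu | hu | hu | hu | hu | hu <;>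
  rcases hv with hv | hv | hv | hv | hv | hv <;> omega

theorem ex_row {n : ℕ} (hn : 6 ≤ n) :
    ∃ S : Finset (Fin n × Fin 1), IsMsResolving (cyl n 1) S ∧ S.card = 3 := by
  let a : Fin n × Fin 1 := (⟨0, by omega⟩, 0)
  let b : Fin n × Fin 1 := (⟨1, by omega⟩, 0)
  let c : Fin n × Fin 1 := (⟨3, by omega⟩, 0)
  have hab : a ≠ b := by
    intro h
    have := congrArg (fun u : Fin n × Fin 1 => (u.1 : ℕ)) h
    simp only [a, b] at this
    omega
  have hac : a ≠ c := by
    intro h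
    have e1 := congrArg (fun u : Fin n × Fin 1 => (u.1 : ℕ)) h
    simp only [a, c] at e1
    omega
  have hbc : b ≠ c := by
    intro h
    have e1 := congrArg (fun u : Fin n × Fin 1 => (u.1 : ℕ)) h
    simp only [b, c] at e1
    omega
  refine ⟨{a, b, c}, resolving_of_res (by omega) hab hac hbc ?_, ?_⟩
  · have := res_row (n := n) (by omega)
    simpa [a, b, c] using this
  · exact Finset.card_eq_three.2 ⟨a, b, c, hab, hac, hbc, rfl⟩

/-! ### Small cases -/

theorem okLook_small {n m : ℕ} (hn : n < 8) (hm : m < 6) (hm0 : m ≠ 0) :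
    okLook n m (lookOf n (midRows m)) = true := by
  have h := okLook_all
  rw [List.all_eq_true] at h
  have h' := h n (List.mem_range.2 hn)
  rw [List.all_eq_true] at h'
  have h'' := h' m (List.mem_range.2 hm)
  simpa [hm0] using h''

theorem top_small {n m : ℕ} (hn : 4 ≤ n) (hm : 1 ≤ m) (h : n ≤ 5 ∧ m ≤ 2) :
    mdim (cyl n m) = ⊤ := by
  refine mdim_top ?_
  intro S hS
  have h3 := three_le (by omega) hm hS
  have hmem : (n, m) ∈ [(4, 1), (5, 1), (4, 2), (5, 2)] := by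
    obtain ⟨h1, h2⟩ := h
    interval_cases n <;> interval_cases m <;> simp
  have hall := negAll
  rw [List.all_eq_true] at hall
  have h1 := hall _ hmem
  rw [List.all_eq_true] at h1
  have hle : S.card ≤ n * m := by
    have := Finset.card_le_univ S
    simpa using this
  have hnm : n * m ≤ 10 := by
    have := Nat.mul_le_mul h.1 h.2
    omega
  have h2 := h1 (S.card - 1) (List.mem_range.2 (by
    change S.card - 1 < n * m
    omega))
  exact no_card (k := S.card - 1) (by omega) (by omega) (okLook_small (by omega) (by omega)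
    (by omega)) h2 S hS (by omega)

theorem no_four_exc {n m : ℕ} (h : (n, m) ∈ exc) (S : Finset (Fin n × Fin m))
    (hS : IsMsResolving (cyl n m) S) : S.card ≠ 4 := by
  simp only [exc, List.mem_cons, Prod.mk.injEq, List.not_mem_nil, or_false] at h
  rcases h with ⟨rfl, rfl⟩ | ⟨rfl, rfl⟩ | ⟨rfl, rfl⟩ | ⟨rfl, rfl⟩ | ⟨rfl, rfl⟩ | ⟨rfl, rfl⟩ |
    ⟨rfl, rfl⟩ | ⟨rfl, rfl⟩ | ⟨rfl, rfl⟩ | ⟨rfl, rfl⟩ | ⟨rfl, rfl⟩
  · exact no_card (by norm_num) (by norm_num) (okLook_small (by norm_num) (by norm_num)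
      (by norm_num)) neg_4_3 S hS
  · exact no_card (by norm_num) (by norm_num) (okLook_small (by norm_num) (by norm_num)
      (by norm_num)) neg_4_4 S hS
  · exact no_card (by norm_num) (by norm_num) (okLook_small (by norm_num) (by norm_num)
      (by norm_num)) neg_5_3 S hS
  · exact no_card (by norm_num) (by norm_num) (okLook_small (by norm_num) (by norm_num)
      (by norm_num)) neg_5_4 S hS
  · exact no_card (by norm_num) (by norm_num) (okLook_small (by norm_num) (by norm_num)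
      (by norm_num)) neg_6_2 S hS
  · exact no_card (by norm_num) (by norm_num) (okLook_small (by norm_num) (by norm_num)
      (by norm_num)) neg_6_3 S hS
  · exact no_card (by norm_num) (by norm_num) (okLook_small (by norm_num) (by norm_num)
      (by norm_num)) neg_6_4 S hS
  · exact no_card (by norm_num) (by norm_num) (okLook_small (by norm_num) (by norm_num)
      (by norm_num)) neg_6_5 S hS
  · exact no_card (by norm_num) (by norm_num) (okLook_small (by norm_num) (by norm_num)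
      (by norm_num)) neg_7_2 S hS
  · exact no_card (by norm_num) (by norm_num) (okLook_small (by norm_num) (by norm_num)
      (by norm_num)) neg_7_3 S hS
  · exact no_card (by norm_num) (by norm_num) (okLook_small (by norm_num) (by norm_num)
      (by norm_num)) neg_7_5 S hS

theorem ex_exc {n m : ℕ} (h : (n, m) ∈ exc) :
    ∃ S : Finset (Fin n × Fin m), IsMsResolving (cyl n m) S ∧ S.card = 5 := by
  obtain ⟨t, ht, h1, h2⟩ := tab5_cover _ h
  obtain ⟨a, b, L⟩ := t
  simp only at h1 h2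
  subst h1 h2
  have hok := tab5_ok
  rw [List.all_eq_true] at hok
  have hlen := tab5_len
  rw [List.all_eq_true] at hlen
  obtain ⟨S, hS, hc⟩ := ex_of_entry (hok _ ht)
  refine ⟨S, hS, ?_⟩
  have := hlen _ ht
  simp only [beq_iff_eq] at this
  omega

theorem ex_tab4 {n m : ℕ} (hn : n < 33) (hm : m < 6) (h4 : 4 ≤ n) (h2 : 2 ≤ m)
    (he : (n, m) ∉ exc) (hT : ¬ (n ≤ 5 ∧ m ≤ 2))
    (hE : ¬ (m % 2 = 0 ∧ 6 * m ≤ n + 1 ∧ n ≠ 6 * m + 1))
    (hO : ¬ (m % 2 = 1 ∧ 6 * m ≤ n ∧ n ≠ 6 * m + 2)) :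
    ∃ S : Finset (Fin n × Fin m), IsMsResolving (cyl n m) S ∧ S.card = 4 := by
  obtain ⟨t, ht, h1, h2⟩ := tab4_cover hn hm h4 h2 he hT hE hO
  obtain ⟨a, b, L⟩ := t
  simp only at h1 h2
  subst h1 h2
  have hok := tab4_ok
  rw [List.all_eq_true] at hok
  have hlen := tab4_len
  rw [List.all_eq_true] at hlen
  obtain ⟨S, hS, hc⟩ := ex_of_entry (hok _ ht)
  refine ⟨S, hS, ?_⟩
  have := hlen _ ht
  simp only [beq_iff_eq] at this
  omega

/-- The full determination. -/
theorem main (n m : ℕ) (hn : 4 ≤ n) (hm : 1 ≤ m) :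
    mdim (cyl n m) =
      if n ≤ 5 ∧ m ≤ 2 then ⊤
      else if m = 1 ∨ (m % 2 = 0 ∧ 6 * m ≤ n + 1 ∧ n ≠ 6 * m + 1) ∨
          (m % 2 = 1 ∧ 6 * m ≤ n ∧ n ≠ 6 * m + 2) then 3
      else if (n, m) ∈ exc then 5
      else 4 := by
  split_ifs with h1 h2 h3
  · exact top_small hn hm h1
  · -- value 3
    have hex : ∃ S : Finset (Fin n × Fin m), IsMsResolving (cyl n m) S ∧ S.card = 3 := by
      rcases eq_or_ne m 1 with rfl | hm1
      · exact ex_row (by omega)
      · refine ex_three hn (by omega) ?_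
        unfold Bd
        omega
    obtain ⟨S, hS, hc⟩ := hex
    refine le_antisymm (mdim_le hS hc) ?_
    exact le_mdim fun T hT => three_le (by omega) hm hT
  · -- value 5
    have hm2 : 2 ≤ m := by omega
    obtain ⟨S, hS, hc⟩ := ex_exc h3
    refine le_antisymm (mdim_le hS hc) ?_
    have hle : ((5 : ℕ) : ℕ∞) ≤ mdim (cyl n m) := by
      refine le_mdim fun T hT => ?_
      have h4 := four_le hn hm2 (by unfold Bd; omega) hT
      have h5 := no_four_exc h3 T hT
      omega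
    exact hle
  · -- value 4
    have hm2 : 2 ≤ m := by omega
    have hex : ∃ S : Finset (Fin n × Fin m), IsMsResolving (cyl n m) S ∧ S.card = 4 := by
      by_cases h6 : 6 ≤ m
      · exact ex_four hn h6
      · exact ex_tab4 (by omega) (by omega) hn hm2 h3 h1 (by omega) (by omega)
    obtain ⟨S, hS, hc⟩ := hex
    refine le_antisymm (mdim_le hS hc) ?_
    exact le_mdim fun T hT => four_le hn hm2 (by unfold Bd; omega) hT

end Pool.Agent.J6H77.Mdim
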