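import Pool.Agent.J6H77.Mdim.Core

namespace Pool.Agent.J6H77.Mdim

variable {n M : ℤ}

/-- Three different rows, `s₁` and `s₃` in different columns. -/
theorem patA_ne {a c b₁ b₂ b₃ : ℤ} (h : Res n M 0 b₁ a b₂ c b₃) (hn : 4 ≤ n)
    (hb0 : 0 ≤ b₁) (hb1 : b₁ < b₂) (hb2 : b₂ < b₃) (hb3 : b₃ ≤ M)
    (ha0 : 0 ≤ a) (ha1 : a < n) (hc0 : 1 ≤ c) (hc1 : 2 * c ≤ n) : False := by
  have hn0 : 0 < n := by omega
  by_cases h1 : a = 0 ∨ n + 2 ≤ 2 * a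
  · refine h.cId hn0 0 (b₂ + 1) 1 b₂ ?_ ?_ ?_ ?_ <;> (simp only [Side, ds]; omega)
  by_cases h2 : 2 * a ≤ n
  · refine h.cId hn0 0 (b₁ + 1) 1 b₁ ?_ ?_ ?_ ?_ <;> (simp only [Side, ds]; omega)
  have h3 : 2 * a = n + 1 := by omega
  by_cases h4 : 2 ≤ c
  · refine h.cId hn0 (c - 1) (b₁ + 1) c b₁ ?_ ?_ ?_ ?_ <;> (simp only [Side, ds]; omega)
  have h5 : c = 1 := by omega
  subst h5
  by_cases h6 : (a - 1 + b₂ + b₃) % 2 = 0
  · obtain ⟨j, y, e, e1, e2, e3, e4⟩ := ex_sub 1 (a - 2) (b₂ + 1) b₃ ((a - 1 - b₂ - b₃) / 2)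
      (by omega) (by omega) (by omega) (by omega)
    refine h.c23 hn0 j y (j + 1) (y - 1) ?_ ?_ ?_ ?_ <;> (simp only [Side, ds]; omega)
  · obtain ⟨j, y, e, e1, e2, e3, e4⟩ := ex_add (a + 1) (2 * a - 2) b₂ (b₃ - 1)
      ((3 * (a - 1) + 1 + b₂ + b₃) / 2)
      (by omega) (by omega) (by omega) (by omega)
    refine h.c23 hn0 j y (j + 1) (y + 1) ?_ ?_ ?_ ?_ <;> (simp only [Side, ds]; omega)


/-- Three different rows, `s₁` and `s₃` in the same column, `s₂` on the right. -/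
theorem patA_eq {a b₁ b₂ b₃ : ℤ} (h : Res n M 0 b₁ a b₂ 0 b₃) (hn : 4 ≤ n)
    (hb0 : 0 ≤ b₁) (hb1 : b₁ < b₂) (hb2 : b₂ < b₃) (hb3 : b₃ ≤ M)
    (ha0 : 0 ≤ a) (ha1 : 2 * a ≤ n) : False := by
  have hn0 : 0 < n := by omega
  by_cases h1 : a = 0 ∨ 2 * a = n
  · refine h.cId hn0 1 0 (-1) 0 ?_ ?_ ?_ ?_ <;> (simp only [Side, ds]; omega)
  by_cases h2 : (a + b₂ + b₃) % 2 = 0
  · obtain ⟨j, y, e, e1, e2, e3, e4⟩ := ex_sub 0 (a - 1) (b₂ + 1) b₃ ((a - b₂ - b₃ - 2) / 2)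
      (by omega) (by omega) (by omega) (by omega)
    refine h.c23 hn0 j y (j + 1) (y - 1) ?_ ?_ ?_ ?_ <;> (simp only [Side, ds]; omega)
  by_cases h3 : (a + b₁ + b₂) % 2 = 0
  · obtain ⟨j, y, e, e1, e2, e3, e4⟩ := ex_add 0 (a - 1) b₁ (b₂ - 1) ((a + b₁ + b₂) / 2 - 1)
      (by omega) (by omega) (by omega) (by omega)
    refine h.c12 hn0 j y (j + 1) (y + 1) ?_ ?_ ?_ ?_ <;> (simp only [Side, ds]; omega)
  by_cases h4 : 2 * a ≤ n - 2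
  · by_cases h5 : b₃ < M
    · refine h.cId hn0 a (b₃ + 1) (a + 1) b₃ ?_ ?_ ?_ ?_ <;> (simp only [Side, ds]; omega)
    by_cases h6 : 0 < b₁
    · refine h.cId hn0 a (b₁ - 1) (a + 1) b₁ ?_ ?_ ?_ ?_ <;> (simp only [Side, ds]; omega)
    have h7 : b₁ = 0 := by omega
    have h8 : b₃ = M := by omega
    subst h7 h8
    by_cases h9 : 2 * b₂ = b₃
    · refine h.c13 hn0 0 (b₂ - 1) 0 (b₂ + 1) ?_ ?_ ?_ ?_ <;> (simp only [Side, ds]; omega)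
    by_cases h10 : 2 * b₂ < b₃
    · refine h.c13 hn0 1 (b₃ / 2 + 1) (-1) (b₃ / 2 - 1) ?_ ?_ ?_ ?_ <;>
        (simp only [Side, ds]; omega)
    · refine h.c13 hn0 1 (b₃ / 2 - 1) (-1) (b₃ / 2 + 1) ?_ ?_ ?_ ?_ <;>
        (simp only [Side, ds]; omega)
  · obtain ⟨j, y, e, e1, e2, e3, e4⟩ := ex_add (a + 1) (2 * a - 1) b₂ (b₃ - 1)
      ((n + a + b₂ + b₃ - 2) / 2)
      (by omega) (by omega) (by omega) (by omega)
    refine h.c23 hn0 j y (j + 1) (y + 1) ?_ ?_ ?_ ?_ <;> (simp only [Side, ds]; omega)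

theorem patA {a c b₁ b₂ b₃ : ℤ} (h : Res n M 0 b₁ a b₂ c b₃) (hn : 4 ≤ n)
    (hb0 : 0 ≤ b₁) (hb1 : b₁ < b₂) (hb2 : b₂ < b₃) (hb3 : b₃ ≤ M)
    (ha0 : 0 ≤ a) (ha1 : a < n) (hc0 : 0 ≤ c) (hc1 : c < n) : False := by
  have hn0 : 0 < n := by omega
  rcases eq_or_lt_of_le hc0 with hc | hc
  · subst hc
    by_cases h1 : 2 * a ≤ n
    · exact patA_eq h hn hb0 hb1 hb2 hb3 ha0 h1
    · have h' := (h.refl hn0).modEq 0 1 0
      have e1 : -(0 : ℤ) + n * 0 = 0 := by ring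
      have e2 : -a + n * 1 = n - a := by ring
      rw [e1, e2] at h'
      exact patA_eq h' hn hb0 hb1 hb2 hb3 (by omega) (by omega)
  · by_cases h1 : 2 * c ≤ n
    · exact patA_ne h hn hb0 hb1 hb2 hb3 ha0 ha1 hc h1
    · rcases eq_or_lt_of_le ha0 with ha | ha
      · subst ha
        have h' := (h.refl hn0).modEq 0 0 1
        have e1 : -(0 : ℤ) + n * 0 = 0 := by ring
        have e2 : -c + n * 1 = n - c := by ring
        rw [e1, e2] at h'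
        exact patA_ne h' hn hb0 hb1 hb2 hb3 le_rfl (by omega) (by omega) (by omega)
      · have h' := (h.refl hn0).modEq 0 1 1
        have e1 : -(0 : ℤ) + n * 0 = 0 := by ring
        have e2 : -c + n * 1 = n - c := by ring
        have e3 : -a + n * 1 = n - a := by ring
        rw [e1, e2, e3] at h'
        exact patA_ne h' hn hb0 hb1 hb2 hb3 (by omega) (by omega) (by omega) (by omega)

end Pool.Agent.J6H77.Mdim
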