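import Pool.Agent.J6H77.Mdim.Core

namespace Pool.Agent.J6H77.Mdim

variable {n M : ℤ}

theorem dz_emod (n x y a b : ℤ) : dz n (x % n) y a b = dz n x y a b := by
  unfold dz
  have e : x - a = (x % n - a) + n * (x / n) := by
    have := Int.emod_add_mul_ediv x n
    linarith
  rw [e, pc_add_mul]

/-- It suffices to check the resolving property for representatives in `[0, n)`. -/
theorem Res.of_reduced {a₁ b₁ a₂ b₂ a₃ b₃ : ℤ} (hn : 0 < n)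
    (ha1 : 0 ≤ a₁ ∧ a₁ ≤ n) (ha2 : 0 ≤ a₂ ∧ a₂ ≤ n) (ha3 : 0 ≤ a₃ ∧ a₃ ≤ n)
    (h : ∀ x y x' y' : ℤ, 0 ≤ x → x < n → 0 ≤ x' → x' < n → 0 ≤ y → y ≤ M → 0 ≤ y' → y' ≤ M →
      Same3 (ds n x y a₁ b₁) (ds n x y a₂ b₂) (ds n x y a₃ b₃)
        (ds n x' y' a₁ b₁) (ds n x' y' a₂ b₂) (ds n x' y' a₃ b₃) → x = x' ∧ y = y') :
    Res n M a₁ b₁ a₂ b₂ a₃ b₃ := by
  intro x y x' y' h1 h2 h3 h4 hc
  have k1 := Int.emod_nonneg x hn.ne'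
  have k2 := Int.emod_lt_of_pos x hn
  have k3 := Int.emod_nonneg x' hn.ne'
  have k4 := Int.emod_lt_of_pos x' hn
  have key : ∀ x y a b : ℤ, 0 ≤ a ∧ a ≤ n → dz n x y a b = ds n (x % n) y a b := by
    intro x y a b ha
    have k1 := Int.emod_nonneg x hn.ne'
    have k2 := Int.emod_lt_of_pos x hn
    rw [← dz_emod, dz_eq hn (by omega) (by omega)]
    rfl
  rw [key _ _ _ _ ha1, key _ _ _ _ ha2, key _ _ _ _ ha3, key _ _ _ _ ha1, key _ _ _ _ ha2,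
    key _ _ _ _ ha3] at hc
  obtain ⟨e1, e2⟩ := h _ _ _ _ k1 k2 k3 k4 h1 h2 h3 h4 hc
  refine ⟨e2, ?_⟩
  exact Int.dvd_of_emod_eq_zero (by
    rw [Int.sub_emod, e1, sub_self, Int.zero_emod])

/-- The six arcs for three points `0, g₁, g₁+g₂` with all gaps at most `n/2`. -/
theorem arcs_even {k g₁ g₂ x y : ℤ} (h1 : 1 ≤ g₁) (h2 : 1 ≤ g₂) (h3 : g₁ ≤ k) (h4 : g₂ ≤ k)
    (h5 : k ≤ g₁ + g₂) (h6 : g₁ + g₂ < 2 * k) (hx0 : 0 ≤ x) (hx1 : x < 2 * k) (hy : 0 ≤ y) :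
    ∃ u₁ u₂ u₃ : ℤ, ds (2 * k) x y 0 0 = u₁ ∧ ds (2 * k) x y g₁ 0 = u₂ ∧
      ds (2 * k) x y (g₁ + g₂) 0 = u₃ ∧
      ((x ≤ g₁ + g₂ - k ∧ u₁ = x + y ∧ u₂ = g₁ - x + y ∧ u₃ = x + (2 * k - g₁ - g₂) + y) ∨
      (g₁ + g₂ - k ≤ x ∧ x ≤ g₁ ∧ u₁ = x + y ∧ u₂ = g₁ - x + y ∧ u₃ = g₁ + g₂ - x + y) ∨
      (g₁ ≤ x ∧ x ≤ k ∧ u₁ = x + y ∧ u₂ = x - g₁ + y ∧ u₃ = g₁ + g₂ - x + y) ∨
      (k ≤ x ∧ x ≤ g₁ + g₂ ∧ u₁ = 2 * k - x + y ∧ u₂ = x - g₁ + y ∧ u₃ = g₁ + g₂ - x + y) ∨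
      (g₁ + g₂ ≤ x ∧ x ≤ g₁ + k ∧ u₁ = 2 * k - x + y ∧ u₂ = x - g₁ + y ∧
        u₃ = x - g₁ - g₂ + y) ∨
      (g₁ + k ≤ x ∧ u₁ = 2 * k - x + y ∧ u₂ = 2 * k + g₁ - x + y ∧ u₃ = x - g₁ - g₂ + y)) := by
  refine ⟨_, _, _, rfl, rfl, rfl, ?_⟩
  simp only [ds]
  rcases le_total x (g₁ + g₂ - k) with a1 | a1
  · exact Or.inl ⟨a1, by omega, by omega, by omega⟩
  rcases le_total x g₁ with a2 | a2
  · exact Or.inr (Or.inl ⟨a1, a2, by omega, by omega, by omega⟩)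
  rcases le_total x k with a3 | a3
  · exact Or.inr (Or.inr (Or.inl ⟨a2, a3, by omega, by omega, by omega⟩))
  rcases le_total x (g₁ + g₂) with a4 | a4
  · exact Or.inr (Or.inr (Or.inr (Or.inl ⟨a3, a4, by omega, by omega, by omega⟩)))
  rcases le_total x (g₁ + k) with a5 | a5
  · exact Or.inr (Or.inr (Or.inr (Or.inr (Or.inl ⟨a4, a5, by omega, by omega, by omega⟩))))
  · exact Or.inr (Or.inr (Or.inr (Or.inr (Or.inr ⟨a5, by omega, by omega, by omega⟩))))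

/-- Existence for even `n`: two odd gaps `o₁ = 2i+1`, `o₂ = 2j+1` and an even gap `e = 2l`. -/
theorem resE {i j l M : ℤ} (hM : 0 ≤ M) (hi : 0 ≤ i) (hl : 1 ≤ l) (h1 : i + M + 1 ≤ j)
    (h2 : l ≤ 2 * i + 1) (h3 : j ≤ i + l) :
    Res (2 * (i + j + l + 1)) M 0 0 (2 * i + 1) 0 (2 * i + 1 + 2 * l) 0 := by
  refine Res.of_reduced (by omega) (by omega) (by omega) (by omega) ?_
  intro x y x' y' hx0 hx1 hx0' hx1' hy0 hy1 hy0' hy1' hc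
  obtain ⟨u₁, u₂, u₃, e1, e2, e3, hu⟩ := arcs_even (k := i + j + l + 1) (g₁ := 2 * i + 1)
    (g₂ := 2 * l) (x := x) (y := y) (by omega) (by omega) (by omega) (by omega) (by omega)
    (by omega) hx0 hx1 hy0
  obtain ⟨v₁, v₂, v₃, f1, f2, f3, hv⟩ := arcs_even (k := i + j + l + 1) (g₁ := 2 * i + 1)
    (g₂ := 2 * l) (x := x') (y := y') (by omega) (by omega) (by omega) (by omega) (by omega)
    (by omega) hx0' hx1' hy0'
  rw [e1, e2, e3, f1, f2, f3] at hc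
  clear e1 e2 e3 f1 f2 f3
  rcases hc with hc | hc | hc | hc | hc | hc <;>
  rcases hu with hu | hu | hu | hu | hu | hu <;>
  rcases hv with hv | hv | hv | hv | hv | hv <;> omega


/-- The six arcs for odd cycle length `2k+1`, all gaps at most `k`. -/
theorem arcs_odd {k g₁ g₂ x y : ℤ} (h1 : 1 ≤ g₁) (h2 : 1 ≤ g₂) (h3 : g₁ ≤ k) (h4 : g₂ ≤ k)
    (h5 : k + 1 ≤ g₁ + g₂) (h6 : g₁ + g₂ ≤ 2 * k) (hx0 : 0 ≤ x) (hx1 : x < 2 * k + 1)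
    (hy : 0 ≤ y) :
    ∃ u₁ u₂ u₃ : ℤ, ds (2 * k + 1) x y 0 0 = u₁ ∧ ds (2 * k + 1) x y g₁ 0 = u₂ ∧
      ds (2 * k + 1) x y (g₁ + g₂) 0 = u₃ ∧
      ((x < g₁ + g₂ - k ∧ u₁ = x + y ∧ u₂ = g₁ - x + y ∧ u₃ = x + (2 * k + 1 - g₁ - g₂) + y) ∨
      (g₁ + g₂ - k ≤ x ∧ x ≤ g₁ ∧ u₁ = x + y ∧ u₂ = g₁ - x + y ∧ u₃ = g₁ + g₂ - x + y) ∨
      (g₁ ≤ x ∧ x ≤ k ∧ u₁ = x + y ∧ u₂ = x - g₁ + y ∧ u₃ = g₁ + g₂ - x + y) ∨
      (k < x ∧ x ≤ g₁ + g₂ ∧ u₁ = 2 * k + 1 - x + y ∧ u₂ = x - g₁ + y ∧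
        u₃ = g₁ + g₂ - x + y) ∨
      (g₁ + g₂ ≤ x ∧ x ≤ g₁ + k ∧ u₁ = 2 * k + 1 - x + y ∧ u₂ = x - g₁ + y ∧
        u₃ = x - g₁ - g₂ + y) ∨
      (g₁ + k < x ∧ u₁ = 2 * k + 1 - x + y ∧ u₂ = 2 * k + 1 + g₁ - x + y ∧
        u₃ = x - g₁ - g₂ + y)) := by
  refine ⟨_, _, _, rfl, rfl, rfl, ?_⟩
  simp only [ds]
  rcases lt_or_ge x (g₁ + g₂ - k) with a1 | a1
  · exact Or.inl ⟨a1, by omega, by omega, by omega⟩
  rcases le_total x g₁ with a2 | a2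
  · exact Or.inr (Or.inl ⟨a1, a2, by omega, by omega, by omega⟩)
  rcases le_or_gt x k with a3 | a3
  · exact Or.inr (Or.inr (Or.inl ⟨a2, a3, by omega, by omega, by omega⟩))
  rcases le_total x (g₁ + g₂) with a4 | a4
  · exact Or.inr (Or.inr (Or.inr (Or.inl ⟨a3, a4, by omega, by omega, by omega⟩)))
  rcases le_or_gt x (g₁ + k) with a5 | a5
  · exact Or.inr (Or.inr (Or.inr (Or.inr (Or.inl ⟨a4, a5, by omega, by omega, by omega⟩))))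
  · exact Or.inr (Or.inr (Or.inr (Or.inr (Or.inr ⟨a5, by omega, by omega, by omega⟩))))

/-- The four arcs for odd cycle length `2(p+q)+1`, points `0, p, p+q`. -/
theorem arcs_top {p q x y : ℤ} (h1 : 1 ≤ p) (h2 : 1 ≤ q) (hx0 : 0 ≤ x)
    (hx1 : x < 2 * (p + q) + 1) (hy : 0 ≤ y) :
    ∃ u₁ u₂ u₃ : ℤ, ds (2 * (p + q) + 1) x y 0 0 = u₁ ∧ ds (2 * (p + q) + 1) x y p 0 = u₂ ∧
      ds (2 * (p + q) + 1) x y (p + q) 0 = u₃ ∧
      ((x ≤ p ∧ u₁ = x + y ∧ u₂ = p - x + y ∧ u₃ = p + q - x + y) ∨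
      (p ≤ x ∧ x ≤ p + q ∧ u₁ = x + y ∧ u₂ = x - p + y ∧ u₃ = p + q - x + y) ∨
      (p + q < x ∧ x ≤ 2 * p + q ∧ u₁ = 2 * (p + q) + 1 - x + y ∧ u₂ = x - p + y ∧
        u₃ = x - p - q + y) ∨
      (2 * p + q < x ∧ u₁ = 2 * (p + q) + 1 - x + y ∧ u₂ = 2 * (p + q) + 1 + p - x + y ∧
        u₃ = x - p - q + y)) := by
  refine ⟨_, _, _, rfl, rfl, rfl, ?_⟩
  simp only [ds]
  rcases le_total x p with a1 | a1
  · exact Or.inl ⟨a1, by omega, by omega, by omega⟩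
  rcases le_or_gt x (p + q) with a3 | a3
  · exact Or.inr (Or.inl ⟨a1, a3, by omega, by omega, by omega⟩)
  rcases le_or_gt x (2 * p + q) with a5 | a5
  · exact Or.inr (Or.inr (Or.inl ⟨a3, a5, by omega, by omega, by omega⟩))
  · exact Or.inr (Or.inr (Or.inr ⟨a5, by omega, by omega, by omega⟩))

/-- Existence, `n ≡ 3 (mod 4)`: gaps `p = 2i`, `q = 2j+1`, `p+q+1`. -/
theorem resO1 {i j M : ℤ} (hM : 0 ≤ M) (hi : 1 ≤ i) (h1 : i ≤ j) (h2 : j ≤ 2 * i - 1)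
    (h3 : M ≤ j) :
    Res (2 * (2 * i + (2 * j + 1)) + 1) M 0 0 (2 * i) 0 (2 * i + (2 * j + 1)) 0 := by
  refine Res.of_reduced (by omega) (by omega) (by omega) (by omega) ?_
  intro x y x' y' hx0 hx1 hx0' hx1' hy0 hy1 hy0' hy1' hc
  obtain ⟨u₁, u₂, u₃, e1, e2, e3, hu⟩ := arcs_top (p := 2 * i) (q := 2 * j + 1)
    (x := x) (y := y) (by omega) (by omega) hx0 hx1 hy0
  obtain ⟨v₁, v₂, v₃, f1, f2, f3, hv⟩ := arcs_top (p := 2 * i) (q := 2 * j + 1)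
    (x := x') (y := y') (by omega) (by omega) hx0' hx1' hy0'
  rw [e1, e2, e3, f1, f2, f3] at hc
  clear e1 e2 e3 f1 f2 f3
  rcases hc with hc | hc | hc | hc | hc | hc <;>
  rcases hu with hu | hu | hu | hu <;>
  rcases hv with hv | hv | hv | hv <;> omega

theorem res15 : Res 15 1 0 0 3 0 7 0 := by
  refine Res.of_reduced (by omega) (by omega) (by omega) (by omega) ?_
  intro x y x' y' hx0 hx1 hx0' hx1' hy0 hy1 hy0' hy1' hc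
  obtain ⟨u₁, u₂, u₃, e1, e2, e3, hu⟩ := arcs_top (p := 3) (q := 4)
    (x := x) (y := y) (by omega) (by omega) hx0 (by omega) hy0
  obtain ⟨v₁, v₂, v₃, f1, f2, f3, hv⟩ := arcs_top (p := 3) (q := 4)
    (x := x') (y := y') (by omega) (by omega) hx0' (by omega) hy0'
  norm_num at e1 e2 e3 f1 f2 f3
  rw [e1, e2, e3, f1, f2, f3] at hc
  clear e1 e2 e3 f1 f2 f3
  rcases hc with hc | hc | hc | hc | hc | hc <;>
  rcases hu with hu | hu | hu | hu <;>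
  rcases hv with hv | hv | hv | hv <;> omega

/-- Existence, `n ≡ 1 (mod 4)`: gaps `2i`, `2M+3`, `2i+2M+2`. -/
theorem resO2 {i M : ℤ} (hM : 0 ≤ M) (hi : M + 2 ≤ 2 * i) :
    Res (2 * (2 * i + 2 * M + 2) + 1) M 0 0 (2 * i) 0 (2 * i + (2 * M + 3)) 0 := by
  refine Res.of_reduced (by omega) (by omega) (by omega) (by omega) ?_
  intro x y x' y' hx0 hx1 hx0' hx1' hy0 hy1 hy0' hy1' hc
  obtain ⟨u₁, u₂, u₃, e1, e2, e3, hu⟩ := arcs_odd (k := 2 * i + 2 * M + 2) (g₁ := 2 * i)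
    (g₂ := 2 * M + 3) (x := x) (y := y) (by omega) (by omega) (by omega) (by omega) (by omega)
    (by omega) hx0 hx1 hy0
  obtain ⟨v₁, v₂, v₃, f1, f2, f3, hv⟩ := arcs_odd (k := 2 * i + 2 * M + 2) (g₁ := 2 * i)
    (g₂ := 2 * M + 3) (x := x') (y := y') (by omega) (by omega) (by omega) (by omega) (by omega)
    (by omega) hx0' hx1' hy0'
  rw [e1, e2, e3, f1, f2, f3] at hc
  clear e1 e2 e3 f1 f2 f3
  rcases hc with hc | hc | hc | hc | hc | hc <;>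
  rcases hu with hu | hu | hu | hu | hu | hu <;>
  rcases hv with hv | hv | hv | hv | hv | hv <;> omega

/-- The four arcs for two columns `0` and `a`, even cycle length `2k`. -/
theorem arcs_two {k a x : ℤ} (h1 : 1 ≤ a) (h2 : a < k) (hx0 : 0 ≤ x)
    (hx1 : x < 2 * k) :
    ∃ u v : ℤ, min (max (x - 0) (0 - x)) (2 * k - max (x - 0) (0 - x)) = u ∧
      min (max (x - a) (a - x)) (2 * k - max (x - a) (a - x)) = v ∧
      ((x ≤ a ∧ u = x ∧ v = a - x) ∨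
      (a ≤ x ∧ x ≤ k ∧ u = x ∧ v = x - a) ∨
      (k ≤ x ∧ x ≤ a + k ∧ u = 2 * k - x ∧ v = x - a) ∨
      (a + k ≤ x ∧ u = 2 * k - x ∧ v = 2 * k + a - x)) := by
  refine ⟨_, _, rfl, rfl, ?_⟩
  rcases le_total x a with a1 | a1
  · exact Or.inl ⟨a1, by omega, by omega⟩
  rcases le_total x k with a3 | a3
  · exact Or.inr (Or.inl ⟨a1, a3, by omega, by omega⟩)
  rcases le_total x (a + k) with a5 | a5
  · exact Or.inr (Or.inr (Or.inl ⟨a3, a5, by omega, by omega⟩))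
  · exact Or.inr (Or.inr (Or.inr ⟨a5, by omega, by omega⟩))

/-- Existence, `M = 2r+1` and `n = 6M+6`. -/
theorem resB {r : ℤ} (hr : 0 ≤ r) :
    Res (2 * (6 * r + 6)) (2 * r + 1) 0 0 (4 * r + 4) 0 0 (2 * r + 1) := by
  refine Res.of_reduced (by omega) (by omega) (by omega) (by omega) ?_
  intro x y x' y' hx0 hx1 hx0' hx1' hy0 hy1 hy0' hy1' hc
  obtain ⟨u₁, u₂, e1, e2, hu⟩ := arcs_two (k := 6 * r + 6) (a := 4 * r + 4)
    (x := x) (by omega) (by omega) hx0 hx1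
  obtain ⟨v₁, v₂, f1, f2, hv⟩ := arcs_two (k := 6 * r + 6) (a := 4 * r + 4)
    (x := x') (by omega) (by omega) hx0' hx1'
  simp only [ds] at hc
  rw [e1, e2, f1, f2] at hc
  clear e1 e2 f1 f2
  have g1 : max (y - 0) (0 - y) = y := by omega
  have g2 : max (y - (2 * r + 1)) (2 * r + 1 - y) = 2 * r + 1 - y := by omega
  have g3 : max (y' - 0) (0 - y') = y' := by omega
  have g4 : max (y' - (2 * r + 1)) (2 * r + 1 - y') = 2 * r + 1 - y' := by omega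
  rw [g1, g2, g3, g4] at hc
  clear g1 g2 g3 g4
  rcases hc with hc | hc | hc | hc | hc | hc <;>
  rcases hu with hu | hu | hu | hu <;>
  rcases hv with hv | hv | hv | hv <;> omega

end Pool.Agent.J6H77.Mdim
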